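import Pool.Agent.Lib.MP_25ed17_al.Lau

/-!
A system of 21 quadratic forms in 45 variables over the Laurent series, made from a system of 14
quadratic forms in 15 variables.
-/

namespace Pool.Agent.Lib.MP_25ed17_al.Neg

open HahnSeries Pool.Agent.Lib.MP_25ed17_al

theorem exists_quad {L : Type*} [Field L] {ι κ : Type*} [Fintype κ] (B : ι → κ → κ → L)
    {n r : ℕ} (e : κ ≃ Fin n) (f : ι ≃ Fin r) :
    ∃ q : QuadraticMap L (Fin n → L) (Fin r → L), ∀ x i,
      q x (f i) = ∑ a, ∑ b, B i a b * x (e a) * x (e b) := by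
  let β : (Fin n → L) →ₗ[L] (Fin n → L) →ₗ[L] (Fin r → L) :=
    LinearMap.mk₂ L (fun u v i => ∑ a, ∑ b, B (f.symm i) a b * u (e a) * v (e b))
      (fun u u' v => by
        funext i
        simp only [Pi.add_apply, ← Finset.sum_add_distrib]
        exact Finset.sum_congr rfl fun a _ => Finset.sum_congr rfl fun b _ => by ring)
      (fun c u v => by
        funext i
        simp only [Pi.smul_apply, smul_eq_mul, Finset.mul_sum]
        exact Finset.sum_congr rfl fun a _ => Finset.sum_congr rfl fun b _ => by ring)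
      (fun u v v' => by
        funext i
        simp only [Pi.add_apply, ← Finset.sum_add_distrib]
        exact Finset.sum_congr rfl fun a _ => Finset.sum_congr rfl fun b _ => by ring)
      (fun c u v => by
        funext i
        simp only [Pi.smul_apply, smul_eq_mul, Finset.mul_sum]
        exact Finset.sum_congr rfl fun a _ => Finset.sum_congr rfl fun b _ => by ring)
  refine ⟨LinearMap.BilinMap.toQuadraticMap β, fun x i => ?_⟩
  rw [LinearMap.BilinMap.toQuadraticMap_apply]
  simp only [β, LinearMap.mk₂_apply, Equiv.symm_apply_apply]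

variable {K : Type*} [Field K]

/-- The value of a quadratic form with constant coefficients. -/
noncomputable def form {N : ℕ} (A : Fin N → Fin N → K) (u : Fin N → LaurentSeries K) :
    LaurentSeries K :=
  ∑ a, ∑ b, C (A a b) * u a * u b

theorem form_I {N : ℕ} (A : Fin N → Fin N → K) {u : Fin N → LaurentSeries K} {k : ℤ}
    (hu : ∀ a, I k (u a)) : I (k + k) (form A u) := by
  refine I.sum fun a _ => I.sum fun b _ => ?_
  rw [mul_assoc]
  exact ((hu a).mul (hu b)).C_mul _

theorem form_coeff {N : ℕ} (A : Fin N → Fin N → K) {u : Fin N → LaurentSeries K} {k : ℤ}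
    (hu : ∀ a, I k (u a)) :
    (form A u).coeff (k + k) = ∑ a, ∑ b, A a b * (u a).coeff k * (u b).coeff k := by
  rw [form, HahnSeries.coeff_sum]
  refine Finset.sum_congr rfl fun a _ => ?_
  rw [HahnSeries.coeff_sum]
  refine Finset.sum_congr rfl fun b _ => ?_
  rw [mul_assoc, coeff_C_mul', coeff_mul_I (hu a) (hu b), mul_assoc]

theorem I_succ_of {N M : ℕ} {A : Fin M → Fin N → Fin N → K}
    (hA : ∀ x : Fin N → K, (∀ i, ∑ a, ∑ b, A i a b * x a * x b = 0) → x = 0)
    {u : Fin N → LaurentSeries K} {k : ℤ} (hu : ∀ a, I k (u a))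
    (h : ∀ i, (form (A i) u).coeff (k + k) = 0) : ∀ a, I (k + 1) (u a) := by
  have h1 := hA (fun a => (u a).coeff k) (fun i => by rw [← form_coeff (A i) hu]; exact h i)
  intro a
  exact (hu a).succ (congrFun h1 a)

theorem first_zero {u v : LaurentSeries K} {m : ℤ} (h : u + T 1 * v = 0) (hv : I m v) :
    u.coeff m = 0 := by
  have h1 := congrArg (fun s : LaurentSeries K => s.coeff m) h
  simp only [HahnSeries.coeff_add, HahnSeries.coeff_zero, coeff_T_mul] at h1
  rw [hv _ (by linarith), add_zero] at h1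
  exact h1

theorem second_zero {u v : LaurentSeries K} {m : ℤ} (h : u + T 1 * v = 0) (hu : I (m + 2) u) :
    v.coeff m = 0 := by
  have h1 := congrArg (fun s : LaurentSeries K => s.coeff (m + 1)) h
  simp only [HahnSeries.coeff_add, HahnSeries.coeff_zero, coeff_T_mul] at h1
  rw [hu _ (by linarith), zero_add, add_sub_cancel_right] at h1
  exact h1

theorem blocks_step {N : ℕ} {A : Fin (7 + 7) → Fin N → Fin N → K}
    (hA : ∀ x : Fin N → K, (∀ i, ∑ a, ∑ b, A i a b * x a * x b = 0) → x = 0)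
    {x y z : Fin N → LaurentSeries K}
    (h1 : ∀ i : Fin 7, form (A (Fin.castAdd 7 i)) x + T 1 * form (A (Fin.castAdd 7 i)) y = 0)
    (h2 : ∀ i : Fin 7, form (A (Fin.natAdd 7 i)) x + T 1 * form (A (Fin.castAdd 7 i)) z = 0)
    (h3 : ∀ i : Fin 7, form (A (Fin.natAdd 7 i)) y + T 1 * form (A (Fin.natAdd 7 i)) z = 0)
    {k : ℤ} (hx : ∀ a, I k (x a)) (hy : ∀ a, I k (y a)) (hz : ∀ a, I k (z a)) :
    (∀ a, I (k + 1) (x a)) ∧ (∀ a, I (k + 1) (y a)) ∧ ∀ a, I (k + 1) (z a) := by
  have hx' : ∀ a, I (k + 1) (x a) := by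
    refine I_succ_of hA hx fun i => ?_
    refine Fin.addCases (fun i => ?_) (fun i => ?_) i
    · exact first_zero (h1 i) (form_I _ hy)
    · exact first_zero (h2 i) (form_I _ hz)
  have e : k + 1 + (k + 1) = k + k + 2 := by ring
  have hy' : ∀ a, I (k + 1) (y a) := by
    refine I_succ_of hA hy fun i => ?_
    refine Fin.addCases (fun i => ?_) (fun i => ?_) i
    · exact second_zero (h1 i) (e ▸ form_I _ hx')
    · exact first_zero (h3 i) (form_I _ hz)
  refine ⟨hx', hy', I_succ_of hA hz fun i => ?_⟩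
  refine Fin.addCases (fun i => ?_) (fun i => ?_) i
  · exact second_zero (h2 i) (e ▸ form_I _ hx')
  · exact second_zero (h3 i) (e ▸ form_I _ hy')

theorem blocks_zero {N : ℕ} {A : Fin (7 + 7) → Fin N → Fin N → K}
    (hA : ∀ x : Fin N → K, (∀ i, ∑ a, ∑ b, A i a b * x a * x b = 0) → x = 0)
    {x y z : Fin N → LaurentSeries K}
    (h1 : ∀ i : Fin 7, form (A (Fin.castAdd 7 i)) x + T 1 * form (A (Fin.castAdd 7 i)) y = 0)
    (h2 : ∀ i : Fin 7, form (A (Fin.natAdd 7 i)) x + T 1 * form (A (Fin.castAdd 7 i)) z = 0)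
    (h3 : ∀ i : Fin 7, form (A (Fin.natAdd 7 i)) y + T 1 * form (A (Fin.natAdd 7 i)) z = 0) :
    x = 0 ∧ y = 0 ∧ z = 0 := by
  have hk : ∀ u : Fin N → LaurentSeries K, ∃ k, ∀ a, I k (u a) := by
    intro u
    choose f hf using fun a => exists_I (u a)
    refine ⟨-∑ a, |f a|, fun a => (hf a).mono ?_⟩
    have h4 : |f a| ≤ ∑ a, |f a| :=
      Finset.single_le_sum (f := fun a => |f a|) (fun i _ => abs_nonneg _) (Finset.mem_univ a)
    have h5 := neg_abs_le (f a)
    linarith
  obtain ⟨kx, hkx⟩ := hk x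
  obtain ⟨ky, hky⟩ := hk y
  obtain ⟨kz, hkz⟩ := hk z
  set k := min kx (min ky kz) with hkdef
  have main : ∀ n : ℕ, (∀ a, I (k + n) (x a)) ∧ (∀ a, I (k + n) (y a)) ∧
      ∀ a, I (k + n) (z a) := by
    intro n
    induction n with
    | zero =>
      rw [Nat.cast_zero, add_zero]
      exact ⟨fun a => (hkx a).mono (min_le_left _ _),
        fun a => (hky a).mono ((min_le_right _ _).trans (min_le_left _ _)),
        fun a => (hkz a).mono ((min_le_right _ _).trans (min_le_right _ _))⟩
    | succ n ih =>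
      have h5 := blocks_step hA h1 h2 h3 ih.1 ih.2.1 ih.2.2
      have e : k + ((n + 1 : ℕ) : ℤ) = k + n + 1 := by push_cast; ring
      rw [e]
      exact h5
  have hzero : ∀ u : LaurentSeries K, (∀ n : ℕ, I (k + n) u) → u = 0 := by
    intro u hu
    refine eq_zero_of_I fun n => ?_
    refine (hu (n + k.natAbs)).mono ?_
    push_cast
    have := neg_abs_le k
    linarith
  exact ⟨funext fun a => hzero _ fun n => (main n).1 a,
    funext fun a => hzero _ fun n => (main n).2.1 a,
    funext fun a => hzero _ fun n => (main n).2.2 a⟩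

theorem exists_blocks (K : Type) [Field K] (A : Fin 14 → Fin 15 → Fin 15 → K)
    (hA : ∀ x : Fin 15 → K, (∀ i, ∑ a, ∑ b, A i a b * x a * x b = 0) → x = 0) :
    ∃ q : QuadraticMap (LaurentSeries K) (Fin 45 → LaurentSeries K) (Fin 21 → LaurentSeries K),
      ∀ x, q x = 0 → x = 0 := by
  classical
  change Fin (7 + 7) → Fin 15 → Fin 15 → K at A
  let c : Fin 3 × Fin 7 → Fin 3 → Fin 15 → Fin 15 → LaurentSeries K := fun si u a b =>
    match si.1, u with
    | 0, 0 => C (A (Fin.castAdd 7 si.2) a b)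
    | 0, 1 => T 1 * C (A (Fin.castAdd 7 si.2) a b)
    | 0, 2 => 0
    | 1, 0 => C (A (Fin.natAdd 7 si.2) a b)
    | 1, 1 => 0
    | 1, 2 => T 1 * C (A (Fin.castAdd 7 si.2) a b)
    | 2, 0 => 0
    | 2, 1 => C (A (Fin.natAdd 7 si.2) a b)
    | 2, 2 => T 1 * C (A (Fin.natAdd 7 si.2) a b)
  let B : Fin 3 × Fin 7 → Fin 3 × Fin 15 → Fin 3 × Fin 15 → LaurentSeries K := fun si ua vb =>
    if ua.1 = vb.1 then c si ua.1 ua.2 vb.2 else 0
  obtain ⟨q, hq⟩ := exists_quad B (n := 45) (r := 21)
    (finProdFinEquiv : Fin 3 × Fin 15 ≃ Fin 45) (finProdFinEquiv : Fin 3 × Fin 7 ≃ Fin 21)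
  refine ⟨q, fun x hx => ?_⟩
  let X : Fin 3 → Fin 15 → LaurentSeries K := fun u a => x (finProdFinEquiv (u, a))
  have key : ∀ si : Fin 3 × Fin 7, ∑ u : Fin 3, ∑ a, ∑ b, c si u a b * X u a * X u b = 0 := by
    intro si
    have h := hq x si
    rw [hx, Pi.zero_apply, Fintype.sum_prod_type] at h
    rw [h]
    refine Finset.sum_congr rfl fun u _ => Finset.sum_congr rfl fun a _ => ?_
    rw [Fintype.sum_prod_type, Finset.sum_eq_single u]
    · refine Finset.sum_congr rfl fun b _ => ?_
      simp only [B, X, if_true]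
    · intro v _ hv
      refine Finset.sum_eq_zero fun b _ => ?_
      simp only [B, if_neg hv.symm, zero_mul]
    · intro h; exact absurd (Finset.mem_univ _) h
  have hT : ∀ (D : Fin 15 → Fin 15 → K) (u : Fin 15 → LaurentSeries K),
      ∑ a, ∑ b, T 1 * C (D a b) * u a * u b = T 1 * form D u := by
    intro D u
    rw [form, Finset.mul_sum]
    refine Finset.sum_congr rfl fun a _ => ?_
    rw [Finset.mul_sum]
    exact Finset.sum_congr rfl fun b _ => by ring
  have h1 : ∀ i : Fin 7, form (A (Fin.castAdd 7 i)) (X 0) +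
      T 1 * form (A (Fin.castAdd 7 i)) (X 1) = 0 := by
    intro i
    have h := key (0, i)
    rw [Fin.sum_univ_three] at h
    simp only [c, zero_mul, Finset.sum_const_zero, add_zero] at h
    rw [← hT]
    exact h
  have h2 : ∀ i : Fin 7, form (A (Fin.natAdd 7 i)) (X 0) +
      T 1 * form (A (Fin.castAdd 7 i)) (X 2) = 0 := by
    intro i
    have h := key (1, i)
    rw [Fin.sum_univ_three] at h
    simp only [c, zero_mul, Finset.sum_const_zero, add_zero] at h
    rw [← hT]
    exact h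
  have h3 : ∀ i : Fin 7, form (A (Fin.natAdd 7 i)) (X 1) +
      T 1 * form (A (Fin.natAdd 7 i)) (X 2) = 0 := by
    intro i
    have h := key (2, i)
    rw [Fin.sum_univ_three] at h
    simp only [c, zero_mul, Finset.sum_const_zero, zero_add] at h
    rw [← hT]
    exact h
  obtain ⟨hx0, hx1, hx2⟩ := blocks_zero hA h1 h2 h3
  funext j
  obtain ⟨⟨u, a⟩, rfl⟩ := (finProdFinEquiv : Fin 3 × Fin 15 ≃ Fin 45).surjective j
  change X u a = 0
  fin_cases u
  · exact congrFun hx0 a
  · exact congrFun hx1 a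
  · exact congrFun hx2 a

end Pool.Agent.Lib.MP_25ed17_al.Neg
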