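import Pool.Agent.Lib.MP_25ed17_al.Neg.Filt

/-!
The counting argument: a filtered domain with the growth `2 ^ 21`, all of whose residue degrees
(also at infinity) are divisible by `2731` or `8191`, does not exist.
-/

namespace Pool.Agent.Lib.MP_25ed17_al.Neg

open Module

/-- The numerical semigroup generated by two numbers. -/
def pq (p q : ℕ) : AddSubmonoid ℕ where
  carrier := {n | ∃ a b, n = p * a + q * b}
  add_mem' := by
    rintro _ _ ⟨a, b, rfl⟩ ⟨c, d, rfl⟩
    exact ⟨a + c, b + d, by ring⟩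
  zero_mem' := ⟨0, 0, rfl⟩

theorem mem_pq {p q n : ℕ} : n ∈ pq p q ↔ ∃ a b, n = p * a + q * b := Iff.rfl

theorem mem_pq_of_dvd {p q n : ℕ} (h : p ∣ n ∨ q ∣ n) : n ∈ pq p q := by
  rcases h with ⟨a, rfl⟩ | ⟨b, rfl⟩
  · exact ⟨a, 0, by ring⟩
  · exact ⟨0, b, by ring⟩

theorem arith0 {j A m : ℕ} (h1 : 8191 * j + 2731 * A = 2731 * m) (hj : 1 ≤ j) (hm : m < 8191) :
    False := by
  have h2 : 2731 ∣ 8191 * j :=
    (Nat.dvd_add_left (Dvd.intro A rfl)).1 (h1 ▸ Dvd.intro m rfl)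
  have h3 : 2731 ∣ j := Nat.Coprime.dvd_of_dvd_mul_left (by norm_num) h2
  obtain ⟨k, rfl⟩ := h3
  have h4 : 2731 * (8191 * k + A) = 2731 * m := by rw [← h1]; ring
  have h5 := Nat.eq_of_mul_eq_mul_left (by norm_num) h4
  have h6 : 1 ≤ k := by
    rcases k with _ | k
    · simp at hj
    · simp
  nlinarith

theorem arith {T A : ℕ} (h : 44040192 = 8191 * T + 2731 * A) (hT : 2689 ≤ T) : False := by
  obtain ⟨j, rfl⟩ := Nat.exists_eq_add_of_le (show 2688 ≤ T from le_trans (by norm_num) hT)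
  refine arith0 (j := j) (A := A) (m := 8064) ?_ ?_ (by norm_num)
  · linarith
  · linarith

theorem arith1 {a b : ℕ} (h : 2097152 = 2731 * a + 0 * b) : False := by
  have h1 : 2731 ∣ 2097152 := ⟨a, by linarith⟩
  norm_num at h1

theorem arith2 {k a b : ℕ} (h : 2097152 = 8191 * k + (2731 * a + 8191 * b)) : k ≤ 128 := by
  by_contra hk
  obtain ⟨j, rfl⟩ := Nat.exists_eq_add_of_le (show 129 ≤ k from not_le.1 hk)
  refine arith0 (j := j + 1 + b) (A := a) (m := 384) ?_ ?_ (by norm_num)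
  · linarith
  · linarith [Nat.zero_le j, Nat.zero_le b]

section

variable {F B : Type*} [Field F] [CommRing B] [Algebra F B]

/-- The dimension of a quotient by a smaller ideal differs by an element of the semigroup. -/
theorem exists_add_mem (P : AddSubmonoid ℕ)
    (hB : ∀ M : Ideal B, M.IsMaximal → FiniteDimensional F (B ⧸ M) → finrank F (B ⧸ M) ∈ P)
    {I J : Ideal B} (hIJ : I ≤ J) [FiniteDimensional F (B ⧸ I)] :
    ∃ x ∈ P, finrank F (B ⧸ I) = finrank F (B ⧸ J) + x := by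
  let N : Submodule B (B ⧸ I) := Submodule.map I.mkQ J
  let e : ((B ⧸ I) ⧸ N) ≃ₗ[B] B ⧸ J := Submodule.quotientQuotientEquivQuotient I J hIJ
  have h1 : finrank F ((B ⧸ I) ⧸ N) + finrank F N = finrank F (B ⧸ I) :=
    Submodule.finrank_quotient_add_finrank (N.restrictScalars F)
  have h2 : finrank F ((B ⧸ I) ⧸ N) = finrank F (B ⧸ J) := (e.restrictScalars F).finrank_eq
  have : FiniteDimensional F N := inferInstanceAs (FiniteDimensional F (N.restrictScalars F))
  refine ⟨finrank F N, finrank_mem P ⊥ (fun M hM _ h => hB M hM h) N bot_le, ?_⟩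
  rw [← h1, h2]

end

namespace Filt

variable {F B : Type*} [Field F] [CharZero F] [CommRing B] [IsDomain B] [Algebra F B]

omit [CharZero F] in
theorem exists_point {Δ : ℕ} (hΔ : Δ = 2097152) (D : Filt F B Δ)
    (hres : ∀ M : Ideal B, M.IsMaximal → FiniteDimensional F (B ⧸ M) →
      2731 ∣ finrank F (B ⧸ M) ∨ 8191 ∣ finrank F (B ⧸ M)) (c : F) :
    ∃ (M : Ideal B) (k : ℕ), M.IsMaximal ∧ D.η - algebraMap F B c ∈ M ∧
      FiniteDimensional F (B ⧸ M) ∧ finrank F (B ⧸ M) = 8191 * k ∧ 1 ≤ k ∧ k ≤ 128 := by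
  obtain ⟨hfd, hdim⟩ := D.fibre (by omega) c
  obtain ⟨M, hM, hIM, hMfd, hnd⟩ : ∃ M : Ideal B, M.IsMaximal ∧
      Ideal.span {D.η - algebraMap F B c} ≤ M ∧ FiniteDimensional F (B ⧸ M) ∧
      ¬ 2731 ∣ finrank F (B ⧸ M) := by
    by_contra hcon
    push Not at hcon
    have h1 := finrank_mem (F := F) (pq 2731 0) (Ideal.span {D.η - algebraMap F B c})
      (fun M hM hIM hfdM => mem_pq_of_dvd (Or.inl (hcon M hM hIM hfdM)))
      (B ⧸ Ideal.span {D.η - algebraMap F B c}) (Ideal.annihilator_quotient).ge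
    rw [hdim, hΔ] at h1
    obtain ⟨a, b, hab⟩ := h1
    exact arith1 hab
  obtain ⟨k, hk⟩ := (hres M hM hMfd).resolve_left hnd
  have := hM
  have hpos : 0 < finrank F (B ⧸ M) := by
    have : Nontrivial (B ⧸ M) := Ideal.Quotient.nontrivial_iff.2 hM.ne_top
    exact finrank_pos
  obtain ⟨x, ⟨a, b, hab⟩, hx⟩ := exists_add_mem (F := F) (pq 2731 8191)
    (fun M hM hfdM => mem_pq_of_dvd (hres M hM hfdM)) hIM
  refine ⟨M, k, hM, hIM (Ideal.mem_span_singleton_self _), hMfd, hk, ?_, ?_⟩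
  · rcases k with _ | k
    · rw [hk] at hpos; simp at hpos
    · simp
  · rw [hdim, hΔ, hk, hab] at hx
    exact arith2 hx

/-- The counting contradiction. -/
theorem count_false {Δ : ℕ} (hΔ : Δ = 2097152) (D : Filt F B Δ) (h21 : 23065856 < finrank F (D.Fil 21))
    (Q : Type*) [Field Q] [Algebra B Q] [Algebra F Q] [IsScalarTower F B Q]
    (hQ : Function.Injective (algebraMap B Q))
    (hres : ∀ M : Ideal B, M.IsMaximal → FiniteDimensional F (B ⧸ M) →
      2731 ∣ finrank F (B ⧸ M) ∨ 8191 ∣ finrank F (B ⧸ M))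
    (hinf : ∀ M : Ideal (D.Binf Q), M.IsMaximal → FiniteDimensional F (D.Binf Q ⧸ M) →
      2731 ∣ finrank F (D.Binf Q ⧸ M) ∨ 8191 ∣ finrank F (D.Binf Q ⧸ M)) : False := by
  choose M k hM hηM hfd hk hk1 hk2 using fun n : ℕ => D.exists_point hΔ hres (n : F)
  have hex : ∃ n, 2689 ≤ ∑ i ∈ Finset.range n, k i := by
    refine ⟨2689, ?_⟩
    calc 2689 = ∑ i ∈ Finset.range 2689, 1 := by simp
      _ ≤ _ := Finset.sum_le_sum fun i _ => hk1 i
  obtain ⟨n, hn1, hn2⟩ : ∃ n, 2689 ≤ ∑ i ∈ Finset.range n, k i ∧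
      ∑ i ∈ Finset.range n, k i ≤ 2816 := by
    classical
    refine ⟨Nat.find hex, Nat.find_spec hex, ?_⟩
    rcases hcase : Nat.find hex with _ | m
    · simp
    · have h1 : ¬ 2689 ≤ ∑ i ∈ Finset.range m, k i := Nat.find_min hex (by omega)
      rw [Finset.sum_range_succ]
      have := hk2 m
      omega
  set S := ∑ i ∈ Finset.range n, k i with hS
  -- the map to the product of the residue fields
  have hne : ∀ i j : Fin n, i ≠ j → M i ≠ M j := by
    intro i j hij hMij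
    have h1 := (M i).sub_mem (hηM i) (hMij ▸ hηM j)
    have h2 : D.η - algebraMap F B (i : ℕ) - (D.η - algebraMap F B (j : ℕ)) =
        algebraMap F B ((j : ℕ) - (i : ℕ) : F) := by rw [map_sub]; ring
    rw [h2] at h1
    have h3 : ((j : ℕ) - (i : ℕ) : F) ≠ 0 := by
      rw [_root_.sub_ne_zero, Ne, Nat.cast_inj]
      exact fun h => hij (Fin.ext h.symm)
    exact (hM i).ne_top (Ideal.eq_top_of_isUnit_mem _ h1 ((IsUnit.mk0 _ h3).map _))
  let Φ : B →ₗ[B] (∀ i : Fin n, B ⧸ M i) := LinearMap.pi fun i => (M i).mkQ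
  have hΦ : Function.Surjective Φ := by
    have hcop : Pairwise fun i j : Fin n => IsCoprime (M i) (M j) := by
      intro i j hij
      rw [Ideal.isCoprime_iff_sup_eq]
      exact (hM i).coprime_of_ne (hM j) (hne i j hij)
    intro g
    choose g' hg' using fun i => Ideal.Quotient.mk_surjective (g i)
    obtain ⟨x, hx⟩ := Ideal.exists_forall_sub_mem_ideal hcop g'
    refine ⟨x, ?_⟩
    funext i
    rw [← hg' i]
    exact (Ideal.Quotient.mk_eq_mk_iff_sub_mem _ _).2 (hx i)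
  have hdimP : finrank F (∀ i : Fin n, B ⧸ M i) = 8191 * S := by
    have : ∀ i : Fin n, FiniteDimensional F (B ⧸ M i) := fun i => hfd i
    rw [finrank_pi_fintype, hS, Finset.mul_sum, ← Fin.sum_univ_eq_sum_range (fun i => 8191 * k i)]
    exact Finset.sum_congr rfl fun i _ => hk i
  have hfdP : FiniteDimensional F (∀ i : Fin n, B ⧸ M i) := by
    have : ∀ i : Fin n, FiniteDimensional F (B ⧸ M i) := fun i => hfd i
    infer_instance
  -- a function vanishing at all chosen points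
  obtain ⟨h, hh, hh0, hhΦ⟩ : ∃ h : B, h ∈ D.Fil 21 ∧ h ≠ 0 ∧ Φ h = 0 := by
    have := D.fd 21
    let f : D.Fil 21 →ₗ[F] (∀ i : Fin n, B ⧸ M i) :=
      (Φ.restrictScalars F) ∘ₗ (D.Fil 21).subtype
    have hker : LinearMap.ker f ≠ ⊥ := by
      apply LinearMap.ker_ne_bot_of_finrank_lt
      rw [hdimP]
      refine lt_of_le_of_lt ?_ h21
      calc 8191 * S ≤ 8191 * 2816 := Nat.mul_le_mul_left _ hn2
        _ = 23065856 := by norm_num
    obtain ⟨x, hx, hx0⟩ := (Submodule.ne_bot_iff _).1 hker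
    exact ⟨x, x.2, fun h0 => hx0 (Subtype.ext h0), hx⟩
  let J : Ideal B := LinearMap.ker Φ
  have hdimJ : finrank F (B ⧸ J) = 8191 * S := by
    rw [← hdimP]
    exact ((Φ.quotKerEquivOfSurjective hΦ).restrictScalars F).finrank_eq
  obtain ⟨hfdh, -⟩ := D.quot hh0 hh
  have hhJ : Ideal.span {h} ≤ J := by
    rw [Ideal.span_singleton_le_iff_mem]; exact hhΦ
  obtain ⟨x, ⟨a, b, hab⟩, hx⟩ := exists_add_mem (F := F) (pq 2731 8191)
    (fun M hM hfdM => mem_pq_of_dvd (hres M hM hfdM)) hhJ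
  obtain ⟨hfdi, hdi⟩ := D.quot_inf Q hQ (by omega) hh0 hh
  obtain ⟨a', b', hab'⟩ := finrank_mem (F := F) (pq 2731 8191) ⊥
    (fun M hM _ hfdM => mem_pq_of_dvd (hinf M hM hfdM)) (D.Uinf Q h 21 ⧸ D.Bsub Q h 21) bot_le
  rw [hdimJ] at hx
  refine arith (T := S + b + b') (A := a + a') ?_
    (hn1.trans ((Nat.le_add_right _ _).trans (Nat.le_add_right _ _)))
  calc 44040192 = 21 * Δ := by rw [hΔ]
    _ = (2731 * a' + 8191 * b') + (8191 * S + (2731 * a + 8191 * b)) := by
      rw [← hdi, hab', hx, hab]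
    _ = _ := by ring

end Filt

end Pool.Agent.Lib.MP_25ed17_al.Neg
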