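import Mathlib

/-!
The ring defined by a deformation of the relations `x_{i+1} = x_i ^ 2`: generators of the degree
filtration over a local ring.
-/

namespace Pool.Agent.Lib.MP_25ed17_al.Neg

open MvPolynomial

section defs

variable {S T : Type*} [CommRing S] [CommRing T] {r : ℕ}

/-- A family of `r` quadratic forms in `r + 2` variables. -/
def qf (c : Fin r → Fin (r + 2) → Fin (r + 2) → S) (y : Fin (r + 2) → S) (i : Fin r) : S :=
  ∑ a, ∑ b, c i a b * y a * y b

theorem map_qf (f : S →+* T) (c : Fin r → Fin (r + 2) → Fin (r + 2) → S) (y : Fin (r + 2) → S)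
    (i : Fin r) : f (qf c y i) = qf (fun i a b => f (c i a b)) (fun a => f (y a)) i := by
  simp only [qf, map_sum, map_mul]

theorem qf_mul (c : Fin r → Fin (r + 2) → Fin (r + 2) → S) (l : S) (y : Fin (r + 2) → S)
    (i : Fin r) : qf c (fun a => l * y a) i = l ^ 2 * qf c y i := by
  simp only [qf, Finset.mul_sum]
  exact Finset.sum_congr rfl fun a _ => Finset.sum_congr rfl fun b _ => by ring

/-- The affine equations. -/
def Gv (c : Fin r → Fin (r + 2) → Fin (r + 2) → S) (ε : S) (x : Fin (r + 1) → S) (i : Fin r) : S :=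
  x i.castSucc ^ 2 - x i.succ + ε * qf c (Fin.snoc (α := fun _ => S) x 1) i

theorem map_snoc_one (f : S →+* T) (x : Fin (r + 1) → S) (a : Fin (r + 2)) :
    f (Fin.snoc (α := fun _ => S) x 1 a) =
      Fin.snoc (α := fun _ => T) (fun i => f (x i)) 1 a := by
  refine Fin.lastCases ?_ (fun j => ?_) a
  · rw [Fin.snoc_last, Fin.snoc_last, map_one]
  · rw [Fin.snoc_castSucc, Fin.snoc_castSucc]

theorem map_Gv (f : S →+* T) (c : Fin r → Fin (r + 2) → Fin (r + 2) → S) (ε : S)
    (x : Fin (r + 1) → S) (i : Fin r) :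
    f (Gv c ε x i) = Gv (fun i a b => f (c i a b)) (f ε) (fun j => f (x j)) i := by
  simp only [Gv, map_add, map_sub, map_mul, map_pow, map_qf]
  congr 3
  funext a
  exact map_snoc_one f x a

/-- The reduced monomials. -/
def mon (x : Fin (r + 1) → S) (μ : Finset (Fin r) × ℕ) : S :=
  (∏ i ∈ μ.1, x i.castSucc) * x (Fin.last r) ^ μ.2

theorem map_mon (f : S →+* T) (x : Fin (r + 1) → S) (μ : Finset (Fin r) × ℕ) :
    f (mon x μ) = mon (fun j => f (x j)) μ := by
  simp only [mon, map_mul, map_prod, map_pow]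

/-- The degree of a reduced monomial. -/
def dg (μ : Finset (Fin r) × ℕ) : ℕ := μ.1.card + μ.2

/-- The ideal of relations. -/
noncomputable def J (c : Fin r → Fin (r + 2) → Fin (r + 2) → S) (ε : S) :
    Ideal (MvPolynomial (Fin (r + 1)) S) :=
  Ideal.span (Set.range (Gv (fun i a b => C (c i a b)) (C ε) X))

theorem J_le_comap (φ : S →+* T) (c : Fin r → Fin (r + 2) → Fin (r + 2) → S) (ε : S) :
    J c ε ≤ (J (fun i a b => φ (c i a b)) (φ ε)).comap (MvPolynomial.map φ) := by
  rw [J, Ideal.span_le]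
  rintro _ ⟨i, rfl⟩
  rw [SetLike.mem_coe, Ideal.mem_comap, map_Gv]
  simp only [map_C, map_X]
  exact Ideal.subset_span ⟨i, rfl⟩

theorem J_le_ker (φ : S →+* T) (c : Fin r → Fin (r + 2) → Fin (r + 2) → S) (ε : S)
    (x : Fin (r + 1) → T) (hx : ∀ i, Gv (fun i a b => φ (c i a b)) (φ ε) x i = 0) :
    J c ε ≤ RingHom.ker (eval₂Hom φ x) := by
  rw [J, Ideal.span_le]
  rintro _ ⟨i, rfl⟩
  rw [SetLike.mem_coe, RingHom.mem_ker, map_Gv]
  simp only [eval₂Hom_C, eval₂Hom_X']
  exact hx i

/-- The image of the polynomials of degree at most `m`. -/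
noncomputable def FilR (c : Fin r → Fin (r + 2) → Fin (r + 2) → S) (ε : S) (m : ℕ) :
    Submodule S (MvPolynomial (Fin (r + 1)) S ⧸ J c ε) :=
  (restrictTotalDegree (Fin (r + 1)) S m).map (Ideal.Quotient.mkₐ S (J c ε)).toLinearMap

theorem mk_mem_FilR (c : Fin r → Fin (r + 2) → Fin (r + 2) → S) (ε : S) {m : ℕ}
    {f : MvPolynomial (Fin (r + 1)) S} (hf : f.totalDegree ≤ m) :
    Ideal.Quotient.mk (J c ε) f ∈ FilR c ε m :=
  ⟨f, (mem_restrictTotalDegree _ _ _).2 hf, rfl⟩

theorem totalDegree_qf_le (c : Fin r → Fin (r + 2) → Fin (r + 2) → S) (i : Fin r) :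
    (qf (fun i a b => C (c i a b))
      (Fin.snoc (α := fun _ => MvPolynomial (Fin (r + 1)) S) X 1) i).totalDegree ≤ 2 := by
  have hY : ∀ a, (Fin.snoc (α := fun _ => MvPolynomial (Fin (r + 1)) S) X 1 a :
      MvPolynomial (Fin (r + 1)) S).totalDegree ≤ 1 := by
    intro a
    refine Fin.lastCases ?_ (fun j => ?_) a
    · rw [Fin.snoc_last, totalDegree_one]; exact zero_le_one
    · rw [Fin.snoc_castSucc]
      exact (totalDegree_monomial_le _ _).trans (by simp)
  unfold qf
  refine totalDegree_finsetSum_le fun a _ => totalDegree_finsetSum_le fun b _ => ?_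
  refine (totalDegree_mul _ _).trans ?_
  refine le_trans (add_le_add (totalDegree_mul _ _) le_rfl) ?_
  rw [totalDegree_C]
  have := hY a
  have := hY b
  omega

theorem totalDegree_mon_le (μ : Finset (Fin r) × ℕ) :
    (mon (X : Fin (r + 1) → MvPolynomial (Fin (r + 1)) S) μ).totalDegree ≤ dg μ := by
  have hX : ∀ a : Fin (r + 1), (X a : MvPolynomial (Fin (r + 1)) S).totalDegree ≤ 1 := fun a =>
    (totalDegree_monomial_le _ _).trans (by simp)
  unfold mon dg
  refine (totalDegree_mul _ _).trans (add_le_add ?_ ?_)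
  · refine (totalDegree_finsetProd _ _).trans ?_
    refine (Finset.sum_le_sum fun a _ => hX _).trans ?_
    simp
  · refine (totalDegree_pow _ _).trans ?_
    exact (Nat.mul_le_mul_left _ (hX _)).trans (by simp)

end defs

section spanning

variable {R : Type*} [CommRing R] {r : ℕ}

/-- The span of the reduced monomials of degree at most `m`. -/
noncomputable def RedR (c : Fin r → Fin (r + 2) → Fin (r + 2) → R) (ε : R) (m : ℕ) :
    Submodule R (MvPolynomial (Fin (r + 1)) R ⧸ J c ε) :=
  Submodule.span R ((fun μ => Ideal.Quotient.mk (J c ε) (mon X μ)) '' {μ | dg μ ≤ m})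

theorem monomial_eq_mon (s : Fin (r + 1) →₀ ℕ) (hs : ∀ i : Fin r, s i.castSucc ≤ 1) :
    (monomial s 1 : MvPolynomial (Fin (r + 1)) R) =
      mon X (Finset.univ.filter fun i : Fin r => s i.castSucc = 1, s (Fin.last r)) ∧
    dg (Finset.univ.filter fun i : Fin r => s i.castSucc = 1, s (Fin.last r)) = s.degree := by
  constructor
  · rw [monomial_eq, map_one, one_mul, Finsupp.prod_fintype _ _ (fun i => pow_zero _),
      Fin.prod_univ_castSucc, mon, Finset.prod_filter]
    congr 1
    refine Finset.prod_congr rfl fun i _ => ?_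
    have h1 := hs i
    have h2 : s i.castSucc = 0 ∨ s i.castSucc = 1 := by omega
    rcases h2 with h2 | h2
    · rw [h2, pow_zero, if_neg zero_ne_one]
    · rw [h2, pow_one, if_pos rfl]
  · rw [dg, Finsupp.degree_eq_sum, Fin.sum_univ_castSucc, Finset.card_filter]
    congr 1
    refine Finset.sum_congr rfl fun i _ => ?_
    have h1 := hs i
    have h2 : s i.castSucc = 0 ∨ s i.castSucc = 1 := by omega
    rcases h2 with h2 | h2
    · rw [h2, if_neg zero_ne_one]
    · rw [h2, if_pos rfl]

theorem mk_monomial_mem (c : Fin r → Fin (r + 2) → Fin (r + 2) → R) (ε : R) (m : ℕ)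
    (I₀ : Ideal R) (hε : ε ∈ I₀) (d : ℕ) : ∀ s : Fin (r + 1) →₀ ℕ, s.degree = d → d ≤ m →
    Ideal.Quotient.mk (J c ε) (monomial s 1) ∈ RedR c ε m ⊔ I₀ • FilR c ε m := by
  induction d using Nat.strong_induction_on with
  | _ d ih =>
    intro s hsd hdm
    by_cases hs : ∀ i : Fin r, s i.castSucc ≤ 1
    · obtain ⟨h1, h2⟩ := monomial_eq_mon (R := R) s hs
      apply Submodule.mem_sup_left
      apply Submodule.subset_span
      refine ⟨_, ?_, congrArg _ h1.symm⟩
      rw [Set.mem_ofPred_eq, h2, hsd]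
      exact hdm
    · push Not at hs
      obtain ⟨i, hi⟩ := hs
      obtain ⟨s', rfl⟩ : ∃ s', s = s' + Finsupp.single i.castSucc 2 :=
        ⟨s - Finsupp.single i.castSucc 2,
          (tsub_add_cancel_of_le (Finsupp.single_le_iff.2 hi)).symm⟩
      have hdeg : s'.degree + 2 = d := by
        rw [← hsd, map_add, Finsupp.degree_single]
      have hG : Ideal.Quotient.mk (J c ε)
          (Gv (fun i a b => C (c i a b)) (C ε) X i) = 0 :=
        Ideal.Quotient.eq_zero_iff_mem.2 (Ideal.subset_span ⟨i, rfl⟩)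
      set Q : MvPolynomial (Fin (r + 1)) R := qf (fun i a b => C (c i a b))
        (Fin.snoc (α := fun _ => MvPolynomial (Fin (r + 1)) R) X 1) i with hQ
      have h1 : (monomial (s' + Finsupp.single i.castSucc 2) 1 : MvPolynomial (Fin (r + 1)) R) =
          monomial (s' + Finsupp.single i.succ 1) 1 - C ε * (monomial s' 1 * Q) +
            monomial s' 1 * Gv (fun i a b => C (c i a b)) (C ε) X i := by
        have e1 : (monomial (s' + Finsupp.single i.castSucc 2) 1 :
            MvPolynomial (Fin (r + 1)) R) = monomial s' 1 * X i.castSucc ^ 2 := by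
          rw [X_pow_eq_monomial, monomial_mul, one_mul]
        have e2 : (monomial (s' + Finsupp.single i.succ 1) 1 :
            MvPolynomial (Fin (r + 1)) R) = monomial s' 1 * X i.succ := by
          rw [X, monomial_mul, one_mul]
        rw [e1, e2, Gv, ← hQ]
        ring
      rw [h1, map_add, map_mul _ (monomial s' 1) (Gv _ _ _ _), hG, mul_zero, add_zero, map_sub]
      refine Submodule.sub_mem _ ?_ ?_
      · refine ih (s'.degree + 1) (by omega) _ ?_ (by omega)
        rw [map_add, Finsupp.degree_single]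
      · apply Submodule.mem_sup_right
        have h2 : Ideal.Quotient.mk (J c ε) (C ε * (monomial s' 1 * Q)) =
            ε • Ideal.Quotient.mk (J c ε) (monomial s' 1 * Q) := by
          rw [← MvPolynomial.smul_eq_C_mul]
          rfl
        rw [h2]
        refine Submodule.smul_mem_smul hε (mk_mem_FilR c ε ?_)
        refine (totalDegree_mul _ _).trans ?_
        refine (add_le_add (totalDegree_monomial_le _ _) (totalDegree_qf_le c i)).trans ?_
        change s'.degree + 2 ≤ m
        omega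

theorem FilR_le_of_monomial (c : Fin r → Fin (r + 2) → Fin (r + 2) → R) (ε : R) (m : ℕ)
    (N : Submodule R (MvPolynomial (Fin (r + 1)) R ⧸ J c ε))
    (hN : ∀ s : Fin (r + 1) →₀ ℕ, s.degree ≤ m →
      Ideal.Quotient.mk (J c ε) (monomial s 1) ∈ N) : FilR c ε m ≤ N := by
  rintro _ ⟨f, hf, rfl⟩
  change Ideal.Quotient.mk (J c ε) f ∈ N
  rw [SetLike.mem_coe, mem_restrictTotalDegree] at hf
  rw [f.as_sum, map_sum]
  refine Submodule.sum_mem _ fun s hs => ?_
  have h1 : Ideal.Quotient.mk (J c ε) (monomial s (f.coeff s)) =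
      f.coeff s • Ideal.Quotient.mk (J c ε) (monomial s 1) := by
    have : (monomial s (f.coeff s) : MvPolynomial (Fin (r + 1)) R) =
        f.coeff s • monomial s 1 := by
      rw [smul_monomial, smul_eq_mul, mul_one]
    rw [this]
    rfl
  rw [h1]
  refine Submodule.smul_mem _ _ (hN s ?_)
  exact (le_totalDegree hs).trans hf

/-- Over a local ring the reduced monomials generate the degree filtration. -/
theorem FilR_le_RedR [IsLocalRing R] (c : Fin r → Fin (r + 2) → Fin (r + 2) → R) (ε : R)
    (hε : ε ∈ IsLocalRing.maximalIdeal R) (m : ℕ) : FilR c ε m ≤ RedR c ε m := by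
  refine Submodule.le_of_le_smul_of_le_jacobson_bot (I := IsLocalRing.maximalIdeal R) ?_
    (IsLocalRing.maximalIdeal_le_jacobson _) ?_
  · unfold FilR
    exact Submodule.FG.map _ ((Module.Finite.iff_fg (N := restrictTotalDegree _ R m)).1
      inferInstance)
  · exact FilR_le_of_monomial c ε m _ fun s hs => mk_monomial_mem c ε m _ hε _ s rfl hs

theorem RedR_le_FilR (c : Fin r → Fin (r + 2) → Fin (r + 2) → R) (ε : R) (m : ℕ) :
    RedR c ε m ≤ FilR c ε m := by
  rw [RedR, Submodule.span_le]
  rintro _ ⟨μ, hμ, rfl⟩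
  exact mk_mem_FilR c ε ((totalDegree_mon_le μ).trans hμ)

end spanning

end Pool.Agent.Lib.MP_25ed17_al.Neg
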