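import Pool.Agent.Lib.MP_25ed17_al.Neg.Curve1

/-!
Generators of the degree filtration after base change, and linear independence of the reduced
monomials.
-/

namespace Pool.Agent.Lib.MP_25ed17_al.Neg

open MvPolynomial

section base

variable {O F : Type*} [CommRing O] [CommRing F] {r : ℕ}

/-- The map between the rings defined by the equations. -/
noncomputable def bmap (φ : O →+* F) (c : Fin r → Fin (r + 2) → Fin (r + 2) → O) (ε : O) :
    MvPolynomial (Fin (r + 1)) O ⧸ J c ε →+*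
      MvPolynomial (Fin (r + 1)) F ⧸ J (fun i a b => φ (c i a b)) (φ ε) :=
  Ideal.quotientMap _ (MvPolynomial.map φ) (J_le_comap φ c ε)

theorem bmap_mk (φ : O →+* F) (c : Fin r → Fin (r + 2) → Fin (r + 2) → O) (ε : O)
    (f : MvPolynomial (Fin (r + 1)) O) :
    bmap φ c ε (Ideal.Quotient.mk _ f) = Ideal.Quotient.mk _ (MvPolynomial.map φ f) :=
  Ideal.quotientMap_mk

theorem bmap_smul (φ : O →+* F) (c : Fin r → Fin (r + 2) → Fin (r + 2) → O) (ε : O)
    (a : O) (x : MvPolynomial (Fin (r + 1)) O ⧸ J c ε) :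
    bmap φ c ε (a • x) = φ a • bmap φ c ε x := by
  obtain ⟨f, rfl⟩ := Ideal.Quotient.mk_surjective x
  have h1 : a • Ideal.Quotient.mk (J c ε) f = Ideal.Quotient.mk (J c ε) (C a * f) := by
    rw [← MvPolynomial.smul_eq_C_mul]; rfl
  have h2 : φ a • Ideal.Quotient.mk (J (fun i a b => φ (c i a b)) (φ ε)) (MvPolynomial.map φ f) =
      Ideal.Quotient.mk _ (C (φ a) * MvPolynomial.map φ f) := by
    rw [← MvPolynomial.smul_eq_C_mul]; rfl
  rw [h1, bmap_mk, bmap_mk, h2, map_mul, map_C]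

theorem map_mon_X (φ : O →+* F) (μ : Finset (Fin r) × ℕ) :
    MvPolynomial.map φ (mon X μ) = mon X μ := by
  rw [map_mon]
  simp only [map_X]

theorem bmap_mem_RedR (φ : O →+* F) (c : Fin r → Fin (r + 2) → Fin (r + 2) → O) (ε : O) (m : ℕ)
    (x : MvPolynomial (Fin (r + 1)) O ⧸ J c ε) (hx : x ∈ RedR c ε m) :
    bmap φ c ε x ∈ RedR (fun i a b => φ (c i a b)) (φ ε) m := by
  refine Submodule.span_induction (p := fun x _ =>
    bmap φ c ε x ∈ RedR (fun i a b => φ (c i a b)) (φ ε) m) ?_ ?_ ?_ ?_ hx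
  · rintro _ ⟨μ, hμ, rfl⟩
    rw [bmap_mk, map_mon_X]
    exact Submodule.subset_span ⟨μ, hμ, rfl⟩
  · rw [map_zero]; exact Submodule.zero_mem _
  · intro x y _ _ hx hy
    rw [map_add]; exact Submodule.add_mem _ hx hy
  · intro a x _ hx
    rw [bmap_smul]; exact Submodule.smul_mem _ _ hx

/-- Generators of the degree filtration over a ring receiving a map from a local ring. -/
theorem FilR_le_RedR_map [IsLocalRing O] (φ : O →+* F)
    (c : Fin r → Fin (r + 2) → Fin (r + 2) → O) (ε : O)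
    (hε : ε ∈ IsLocalRing.maximalIdeal O) (m : ℕ) :
    FilR (fun i a b => φ (c i a b)) (φ ε) m ≤ RedR (fun i a b => φ (c i a b)) (φ ε) m := by
  refine FilR_le_of_monomial _ _ m _ fun s hs => ?_
  have h1 : Ideal.Quotient.mk (J c ε) (monomial s 1) ∈ RedR c ε m :=
    FilR_le_RedR c ε hε m (mk_mem_FilR c ε ((totalDegree_monomial_le _ _).trans hs))
  have h2 := bmap_mem_RedR φ c ε m _ h1
  rwa [bmap_mk, map_monomial, map_one] at h2

end base

/-! ### Exponents -/

/-- The exponent of the monomial on the parametrized curve. -/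
def ex {r : ℕ} (μ : Finset (Fin r) × ℕ) : ℕ := ∑ i ∈ μ.1, 2 ^ (i : ℕ) + 2 ^ r * μ.2

theorem ex_injective {r : ℕ} : Function.Injective (ex (r := r)) := by
  rintro ⟨I, j⟩ ⟨I', j'⟩ h
  have hs : ∀ I : Finset (Fin r), ∑ i ∈ I, 2 ^ (i : ℕ) =
      ∑ i ∈ I.map Fin.valEmbedding, 2 ^ i := fun I => by
    rw [Finset.sum_map]; rfl
  have hlt : ∀ I : Finset (Fin r), ∑ i ∈ I, 2 ^ (i : ℕ) < 2 ^ r := by
    intro I
    rw [hs]
    refine Nat.geomSum_lt le_rfl fun k hk => ?_
    obtain ⟨i, -, rfl⟩ := Finset.mem_map.1 hk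
    exact i.2
  simp only [ex] at h
  have h1 : ∑ i ∈ I, 2 ^ (i : ℕ) = ∑ i ∈ I', 2 ^ (i : ℕ) := by
    have := congrArg (· % 2 ^ r) h
    simpa [Nat.mod_eq_of_lt (hlt _)] using this
  have h2 : j = j' := by
    rw [h1] at h
    exact Nat.eq_of_mul_eq_mul_left (by positivity) (Nat.add_left_cancel h)
  rw [hs, hs] at h1
  have h3 := Finset.geomSum_injective (n := 2) le_rfl h1
  rw [Prod.mk.injEq]
  exact ⟨Finset.map_injective _ h3, h2⟩

theorem mon_pow {S : Type*} [CommRing S] {r : ℕ} (z : S) (μ : Finset (Fin r) × ℕ) :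
    mon (fun i : Fin (r + 1) => z ^ (2 ^ (i : ℕ))) μ = z ^ ex μ := by
  simp only [mon, Fin.val_castSucc, Fin.val_last, ex, pow_add, pow_mul]
  rw [Finset.prod_pow_eq_pow_sum]

end Pool.Agent.Lib.MP_25ed17_al.Neg
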