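import Pool.Agent.Lib.MP_25ed17_al.Neg.Curve2

/-!
Linear independence of the reduced monomials over a polynomial ring.
-/

namespace Pool.Agent.Lib.MP_25ed17_al.Neg

section approx

variable {T : Type*} [CommRing T] {r : ℕ}

theorem qf_congr (c : Fin r → Fin (r + 2) → Fin (r + 2) → T) {D : T} {y y' : Fin (r + 2) → T}
    (h : ∀ a, D ∣ y a - y' a) (i : Fin r) : D ∣ qf c y i - qf c y' i := by
  rw [← Ideal.mem_span_singleton, ← Ideal.Quotient.mk_eq_mk_iff_sub_mem, map_qf, map_qf]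
  congr 1
  funext a
  rw [Ideal.Quotient.mk_eq_mk_iff_sub_mem, Ideal.mem_span_singleton]
  exact h a

theorem dvd_of_mem_J {R : Type*} [CommRing R] (φ : R →+* T)
    (c : Fin r → Fin (r + 2) → Fin (r + 2) → R) (ε : R) (D : T) (v : Fin (r + 1) → T)
    (hv : ∀ i, D ∣ Gv (fun i a b => φ (c i a b)) (φ ε) v i)
    {f : MvPolynomial (Fin (r + 1)) R} (hf : f ∈ J c ε) :
    D ∣ MvPolynomial.eval₂Hom φ v f := by
  have h : J c ε ≤ (Ideal.span {D}).comap (MvPolynomial.eval₂Hom φ v) := by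
    rw [J, Ideal.span_le]
    rintro _ ⟨i, rfl⟩
    rw [SetLike.mem_coe, Ideal.mem_comap, map_Gv, Ideal.mem_span_singleton]
    simp only [MvPolynomial.eval₂Hom_C, MvPolynomial.eval₂Hom_X']
    exact hv i
  exact Ideal.mem_span_singleton.1 (h hf)

/-- Approximate solutions of the equations. -/
theorem exists_approx (c : Fin r → Fin (r + 2) → Fin (r + 2) → T) (E z : T) (N : ℕ) :
    ∃ v : Fin (r + 1) → T, v 0 = z ∧ (∀ i : Fin (r + 1), E ∣ v i - z ^ (2 ^ (i : ℕ))) ∧
      ∀ i : Fin r, E ^ N ∣ Gv c E v i := by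
  induction N with
  | zero =>
    refine ⟨fun i => z ^ (2 ^ (i : ℕ)), by simp, fun i => by simp, fun i => by simp⟩
  | succ N ih =>
    obtain ⟨v, hv0, -, hv⟩ := ih
    let e : ℕ → T := fun i => if h : i < r then qf c (Fin.snoc (α := fun _ => T) v 1) ⟨i, h⟩ else 0
    let w : ℕ → T := fun i => Nat.rec z (fun i wi => wi ^ 2 + E * e i) i
    have hw0 : w 0 = z := rfl
    have hws : ∀ i, w (i + 1) = w i ^ 2 + E * e i := fun i => rfl
    have hwz : ∀ i, E ∣ w i - z ^ (2 ^ i) := by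
      intro i
      induction i with
      | zero => simp [hw0]
      | succ i ih =>
        have : w (i + 1) - z ^ (2 ^ (i + 1)) =
            (w i - z ^ (2 ^ i)) * (w i + z ^ (2 ^ i)) + E * e i := by
          rw [hws, pow_succ 2 i, pow_mul]; ring
        rw [this]
        exact dvd_add (Dvd.dvd.mul_right ih _) (dvd_mul_right _ _)
    have hwv : ∀ i (hi : i < r + 1), E ^ N ∣ w i - v ⟨i, hi⟩ := by
      intro i
      induction i with
      | zero =>
        intro hi
        have : v ⟨0, hi⟩ = z := hv0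
        rw [hw0, this, sub_self]
        exact dvd_zero _
      | succ i ih =>
        intro hi
        have hi' : i < r := by omega
        have h1 := ih (by omega)
        have h2 := hv ⟨i, hi'⟩
        have h3 : w (i + 1) - v ⟨i + 1, hi⟩ =
            (w i - v ⟨i, by omega⟩) * (w i + v ⟨i, by omega⟩) + Gv c E v ⟨i, hi'⟩ := by
          rw [hws, Gv]
          have h4 : e i = qf c (Fin.snoc (α := fun _ => T) v 1) ⟨i, hi'⟩ := dif_pos hi'
          have h5 : (⟨i, hi'⟩ : Fin r).castSucc = ⟨i, by omega⟩ := rfl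
          have h6 : (⟨i, hi'⟩ : Fin r).succ = ⟨i + 1, hi⟩ := rfl
          rw [h4, h5, h6]
          ring
        rw [h3]
        exact dvd_add (Dvd.dvd.mul_right h1 _) h2
    refine ⟨fun i => w i, hw0, fun i => hwz i, fun i => ?_⟩
    have h1 : Gv c E (fun i : Fin (r + 1) => w i) i =
        E * (qf c (Fin.snoc (α := fun _ => T) (fun i : Fin (r + 1) => w i) 1) i -
          qf c (Fin.snoc (α := fun _ => T) v 1) i) := by
      rw [Gv]
      have h4 : e i = qf c (Fin.snoc (α := fun _ => T) v 1) i := dif_pos i.2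
      have h5 : w (i.succ : Fin (r + 1)) = w (i : ℕ) ^ 2 + E * e i := by
        rw [← hws, Fin.val_succ]
      have h6 : w (i.castSucc : Fin (r + 1)) = w (i : ℕ) := by rw [Fin.val_castSucc]
      simp only [h5, h6, h4]
      ring
    rw [h1, pow_succ']
    refine mul_dvd_mul_left _ (qf_congr c (fun a => ?_) i)
    refine Fin.lastCases ?_ (fun j => ?_) a
    · rw [Fin.snoc_last, Fin.snoc_last, sub_self]; exact dvd_zero _
    · rw [Fin.snoc_castSucc, Fin.snoc_castSucc]
      exact hwv j j.2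

end approx

section indep

open Polynomial

variable {K : Type*} [Field K] {r : ℕ}

theorem step_dvd (v : Fin (r + 1) → K[X][X])
    (hv : ∀ i : Fin (r + 1), C X ∣ v i - X ^ (2 ^ (i : ℕ)))
    (s : Finset (Finset (Fin r) × ℕ)) (l : Finset (Fin r) × ℕ → K[X])
    (h : C X ∣ ∑ μ ∈ s, C (l μ) * mon v μ) : ∀ μ ∈ s, X ∣ l μ := by
  intro μ₀ hμ₀
  let ρ : K[X][X] →+* K[X] := mapRingHom (evalRingHom 0)
  have hρX : ρ (C X) = 0 := by
    simp [ρ]
  have hρv : ∀ i, ρ (v i) = X ^ (2 ^ (i : ℕ)) := by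
    intro i
    obtain ⟨q, hq⟩ := hv i
    have : ρ (v i - X ^ (2 ^ (i : ℕ))) = 0 := by rw [hq, map_mul, hρX, zero_mul]
    rw [map_sub, sub_eq_zero, map_pow] at this
    rw [this]
    congr 1
    simp [ρ]
  obtain ⟨q, hq⟩ := h
  have h1 : ρ (∑ μ ∈ s, C (l μ) * mon v μ) = 0 := by rw [hq, map_mul, hρX, zero_mul]
  have h2 : ρ (∑ μ ∈ s, C (l μ) * mon v μ) = ∑ μ ∈ s, C ((l μ).eval 0) * X ^ ex μ := by
    rw [map_sum]
    refine Finset.sum_congr rfl fun μ _ => ?_
    rw [map_mul, map_mon]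
    simp only [hρv, mon_pow]
    congr 1
    simp [ρ]
  rw [h2] at h1
  have h3 := congrArg (fun f => coeff f (ex μ₀)) h1
  simp only [finsetSum_coeff, coeff_C_mul, coeff_X_pow, coeff_zero] at h3
  rw [Finset.sum_eq_single μ₀] at h3
  · rw [if_pos rfl, mul_one] at h3
    rw [X_dvd_iff, coeff_zero_eq_eval_zero]
    exact h3
  · intro μ _ hne
    rw [if_neg (fun h => hne (ex_injective h.symm)), mul_zero]
  · intro h; exact absurd hμ₀ h

theorem pow_dvd_of (v : Fin (r + 1) → K[X][X])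
    (hv : ∀ i : Fin (r + 1), C X ∣ v i - X ^ (2 ^ (i : ℕ)))
    (s : Finset (Finset (Fin r) × ℕ)) (N : ℕ) : ∀ l : Finset (Fin r) × ℕ → K[X],
    (C X : K[X][X]) ^ N ∣ ∑ μ ∈ s, C (l μ) * mon v μ → ∀ μ ∈ s, X ^ N ∣ l μ := by
  induction N with
  | zero => intro l _ μ _; simp
  | succ N ih =>
    intro l h μ hμ
    have h1 := step_dvd v hv s l ((dvd_pow_self _ (Nat.succ_ne_zero N)).trans h)
    have h2 : ∀ μ ∈ s, l μ = X * (l μ).divX := by
      intro μ hμ
      have h3 := (l μ).divX_mul_X_add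
      rw [X_dvd_iff.1 (h1 μ hμ), map_zero, add_zero] at h3
      rw [mul_comm]; exact h3.symm
    have h4 : ∑ μ ∈ s, C (l μ) * mon v μ = C X * ∑ μ ∈ s, C ((l μ).divX) * mon v μ := by
      rw [Finset.mul_sum]
      refine Finset.sum_congr rfl fun μ hμ => ?_
      conv_lhs => rw [h2 μ hμ]
      rw [map_mul]; ring
    rw [h4, pow_succ'] at h
    have hCX : (C X : K[X][X]) ≠ 0 := by
      rw [Ne, C_eq_zero]; exact X_ne_zero
    have h5 := ih _ ((mul_dvd_mul_iff_left hCX).1 h) μ hμ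
    rw [h2 μ hμ, pow_succ']
    exact mul_dvd_mul_left _ h5

theorem li_poly (c : Fin r → Fin (r + 2) → Fin (r + 2) → K[X]) :
    LinearIndependent K[X] (fun μ : Finset (Fin r) × ℕ =>
      Ideal.Quotient.mk (J c X) (mon MvPolynomial.X μ)) := by
  rw [linearIndependent_iff']
  intro s l hl μ hμ
  have hf : (∑ μ ∈ s, MvPolynomial.C (l μ) * mon MvPolynomial.X μ :
      MvPolynomial (Fin (r + 1)) K[X]) ∈ J c X := by
    rw [← Ideal.Quotient.eq_zero_iff_mem, map_sum, ← hl]
    refine Finset.sum_congr rfl fun μ _ => ?_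
    rw [← MvPolynomial.smul_eq_C_mul]
    rfl
  have key : ∀ N, X ^ N ∣ l μ := by
    intro N
    obtain ⟨v, -, hv1, hv2⟩ := exists_approx (fun i a b => C (c i a b)) (C X : K[X][X]) X N
    apply pow_dvd_of v hv1 s N l _ μ hμ
    have h1 := dvd_of_mem_J (C : K[X] →+* K[X][X]) c X ((C X) ^ N) v hv2 hf
    rw [map_sum] at h1
    convert h1 using 1
    refine Finset.sum_congr rfl fun μ _ => ?_
    rw [map_mul, map_mon]
    simp only [MvPolynomial.eval₂Hom_C, MvPolynomial.eval₂Hom_X']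
  by_contra hne
  have h1 := key ((l μ).natDegree + 1)
  have h2 := natDegree_le_of_dvd h1 hne
  rw [natDegree_X_pow] at h2
  omega

end indep

end Pool.Agent.Lib.MP_25ed17_al.Neg
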