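import Pool.Agent.Lib.MP_25ed17_al.Neg.Curve3

/-!
Linear independence of the reduced monomials over a field containing the parameter, and the
resulting integral domain.
-/

namespace Pool.Agent.Lib.MP_25ed17_al.Neg

open TensorProduct

theorem li_tensor {P F M ι : Type*} [CommRing P] [CommRing F] [Algebra P F] [Module.Flat P F]
    [AddCommGroup M] [Module P M] {w : ι → M} (hw : LinearIndependent P w) (s : Finset ι)
    (g : ι → F) (h : ∑ μ ∈ s, g μ ⊗ₜ[P] w μ = 0) : ∀ μ ∈ s, g μ = 0 := by
  classical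
  intro μ₀ hμ₀
  have hinj : Function.Injective (Finsupp.linearCombination P w) := hw
  have h1 := Module.Flat.lTensor_preserves_injective_linearMap (M := F) _ hinj
  have h2 : (∑ μ ∈ s, g μ ⊗ₜ[P] (Finsupp.single μ (1 : P))) = 0 := by
    apply h1
    rw [map_sum, map_zero, ← h]
    refine Finset.sum_congr rfl fun μ _ => ?_
    rw [LinearMap.lTensor_tmul, Finsupp.linearCombination_single, one_smul]
  have h3 := congrArg (fun t => TensorProduct.rid P F
    (LinearMap.lTensor F (Finsupp.lapply μ₀ : (ι →₀ P) →ₗ[P] P) t)) h2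
  simp only [map_sum, map_zero, LinearMap.lTensor_tmul, TensorProduct.rid_tmul,
    Finsupp.lapply_apply] at h3
  rw [Finset.sum_eq_single μ₀] at h3
  · simpa using h3
  · intro μ _ hne
    rw [Finsupp.single_eq_of_ne hne.symm, zero_smul]
  · intro h; exact absurd hμ₀ h

theorem sum_eq_zero_of_maps {P F T : Type*} [CommRing P] [CommRing F] [CommRing T] {r : ℕ}
    (φ : P →+* F) (c : Fin r → Fin (r + 2) → Fin (r + 2) → P) (ε : P) (iL : F →+* T)
    (iR : (MvPolynomial (Fin (r + 1)) P ⧸ J c ε) →+* T)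
    (hc : ∀ p, iR (Ideal.Quotient.mk _ (MvPolynomial.C p)) = iL (φ p))
    (s : Finset (Finset (Fin r) × ℕ)) (g : Finset (Fin r) × ℕ → F)
    (hg : ∑ μ ∈ s, g μ • Ideal.Quotient.mk (J (fun i a b => φ (c i a b)) (φ ε))
      (mon MvPolynomial.X μ) = 0) :
    ∑ μ ∈ s, iL (g μ) * iR (Ideal.Quotient.mk _ (mon MvPolynomial.X μ)) = 0 := by
  have hf : (∑ μ ∈ s, MvPolynomial.C (g μ) * mon MvPolynomial.X μ :
      MvPolynomial (Fin (r + 1)) F) ∈ J (fun i a b => φ (c i a b)) (φ ε) := by
    rw [← Ideal.Quotient.eq_zero_iff_mem, map_sum, ← hg]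
    refine Finset.sum_congr rfl fun μ _ => ?_
    rw [← MvPolynomial.smul_eq_C_mul]
    rfl
  have h1 := J_le_ker iL (fun i a b => φ (c i a b)) (φ ε)
    (fun i => iR (Ideal.Quotient.mk _ (MvPolynomial.X i))) (by
      intro i
      have h2 : (iR.comp (Ideal.Quotient.mk (J c ε)))
          (Gv (fun i a b => MvPolynomial.C (c i a b)) (MvPolynomial.C ε)
            MvPolynomial.X i) = 0 := by
        rw [RingHom.comp_apply, Ideal.Quotient.eq_zero_iff_mem.2, map_zero]
        exact Ideal.subset_span ⟨i, rfl⟩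
      rw [map_Gv] at h2
      simp only [RingHom.comp_apply, hc] at h2
      exact h2) hf
  rw [RingHom.mem_ker, map_sum] at h1
  rw [← h1]
  refine Finset.sum_congr rfl fun μ _ => ?_
  rw [map_mul, MvPolynomial.eval₂Hom_C]
  congr 1
  refine (map_mon (iR.comp (Ideal.Quotient.mk (J c ε))) MvPolynomial.X μ).trans ?_
  rw [map_mon]
  simp only [MvPolynomial.eval₂Hom_X']
  rfl

section

variable {K F : Type*} [Field K] [Field F] [Algebra K F] {r : ℕ}

theorem li_field (c : Fin r → Fin (r + 2) → Fin (r + 2) → K) {ε : F} (hε : Transcendental K ε) :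
    LinearIndependent F (fun μ : Finset (Fin r) × ℕ =>
      Ideal.Quotient.mk (J (fun i a b => algebraMap K F (c i a b)) ε)
        (mon MvPolynomial.X μ)) := by
  let φ : Polynomial K →+* F := (Polynomial.aeval ε : Polynomial K →ₐ[K] F).toRingHom
  have hφ : Function.Injective φ := transcendental_iff_injective.1 hε
  let : Algebra (Polynomial K) F := φ.toAlgebra
  have hφa : algebraMap (Polynomial K) F = φ := rfl
  have : FaithfulSMul (Polynomial K) F := (faithfulSMul_iff_algebraMap_injective _ _).2 hφ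
  have : Module.IsTorsionFree (Polynomial K) F := inferInstance
  have : Module.Flat (Polynomial K) F := inferInstance
  let cP : Fin r → Fin (r + 2) → Fin (r + 2) → Polynomial K := fun i a b => Polynomial.C (c i a b)
  have hcP : (fun i a b => φ (cP i a b)) = fun i a b => algebraMap K F (c i a b) := by
    funext i a b
    exact Polynomial.aeval_C _ _
  have hX : φ Polynomial.X = ε := Polynomial.aeval_X _
  let M := MvPolynomial (Fin (r + 1)) (Polynomial K) ⧸ J cP Polynomial.X
  let iR : M →ₐ[Polynomial K] F ⊗[Polynomial K] M := Algebra.TensorProduct.includeRight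
  let iL : F →+* F ⊗[Polynomial K] M := Algebra.TensorProduct.includeLeftRingHom
  have hiR : ∀ p : Polynomial K, iR (Ideal.Quotient.mk _ (MvPolynomial.C p)) = iL (φ p) := by
    intro p
    have h1 : iR (algebraMap (Polynomial K) M p) = _ := iR.commutes p
    exact h1
  rw [linearIndependent_iff']
  intro s g hg μ hμ
  refine li_tensor (li_poly cP) s g ?_ μ hμ
  rw [← hcP, ← hX] at hg
  have h1 := sum_eq_zero_of_maps (T := F ⊗[Polynomial K] M) φ cP Polynomial.X iL
    iR.toRingHom hiR s g hg
  rw [← h1]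
  refine Finset.sum_congr rfl fun μ _ => ?_
  change _ = (g μ ⊗ₜ[Polynomial K] (1 : M)) * ((1 : F) ⊗ₜ[Polynomial K] _)
  rw [Algebra.TensorProduct.tmul_mul_tmul, mul_one, one_mul]

end

end Pool.Agent.Lib.MP_25ed17_al.Neg
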