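import Pool.Agent.Lib.MP_25ed17_al.Neg.Curve4

/-!
The ring defined by the equations is an integral domain.
-/

namespace Pool.Agent.Lib.MP_25ed17_al.Neg

open MvPolynomial

section inj

variable {O F : Type*} [CommRing O] [Field F] {r : ℕ}

theorem mem_RedR_exists {R : Type*} [CommRing R] (c : Fin r → Fin (r + 2) → Fin (r + 2) → R)
    (ε : R) (m : ℕ) (x : MvPolynomial (Fin (r + 1)) R ⧸ J c ε) (hx : x ∈ RedR c ε m) :
    ∃ l : (Finset (Fin r) × ℕ) →₀ R, (∀ μ ∈ l.support, dg μ ≤ m) ∧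
      x = ∑ μ ∈ l.support, l μ • Ideal.Quotient.mk (J c ε) (mon X μ) := by
  rw [RedR, Finsupp.mem_span_image_iff_linearCombination] at hx
  obtain ⟨l, hl, rfl⟩ := hx
  refine ⟨l, fun μ hμ => (Finsupp.mem_supported _ _).1 hl hμ, ?_⟩
  rw [Finsupp.linearCombination_apply, Finsupp.sum]

theorem exists_mem_FilR {R : Type*} [CommRing R] (c : Fin r → Fin (r + 2) → Fin (r + 2) → R)
    (ε : R) (x : MvPolynomial (Fin (r + 1)) R ⧸ J c ε) : ∃ m, x ∈ FilR c ε m := by
  obtain ⟨f, rfl⟩ := Ideal.Quotient.mk_surjective x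
  exact ⟨_, mk_mem_FilR c ε le_rfl⟩

theorem bmap_injective [IsLocalRing O] (φ : O →+* F) (hφ : Function.Injective φ)
    (c : Fin r → Fin (r + 2) → Fin (r + 2) → O) (ε : O) (hε : ε ∈ IsLocalRing.maximalIdeal O)
    (hli : LinearIndependent F (fun μ : Finset (Fin r) × ℕ =>
      Ideal.Quotient.mk (J (fun i a b => φ (c i a b)) (φ ε)) (mon X μ))) :
    Function.Injective (bmap φ c ε) := by
  rw [injective_iff_map_eq_zero]
  intro x hx
  obtain ⟨m, hm⟩ := exists_mem_FilR c ε x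
  obtain ⟨l, -, rfl⟩ := mem_RedR_exists c ε m x (FilR_le_RedR c ε hε m hm)
  rw [map_sum] at hx
  simp only [bmap_smul, bmap_mk, map_mon_X] at hx
  have h1 := linearIndependent_iff'.1 hli _ _ hx
  refine Finset.sum_eq_zero fun μ hμ => ?_
  have h2 : l μ = 0 := hφ (by rw [h1 μ hμ, map_zero])
  rw [h2, zero_smul]

/-- The specialization to the parametrized curve over the residue field. -/
noncomputable def spec {κ : Type*} [CommRing κ] (ρ : O →+* κ) (r : ℕ) :
    MvPolynomial (Fin (r + 1)) O →+* Polynomial κ :=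
  eval₂Hom (Polynomial.C.comp ρ) fun i => Polynomial.X ^ (2 ^ (i : ℕ))

theorem spec_eq_zero {κ : Type*} [CommRing κ] (ρ : O →+* κ)
    (c : Fin r → Fin (r + 2) → Fin (r + 2) → O) (ε : O) (hε : ρ ε = 0)
    {f : MvPolynomial (Fin (r + 1)) O} (hf : f ∈ J c ε) : spec ρ r f = 0 := by
  have h := J_le_ker (Polynomial.C.comp ρ) c ε
    (fun i : Fin (r + 1) => (Polynomial.X : Polynomial κ) ^ (2 ^ (i : ℕ))) (by
      intro i
      rw [Gv, RingHom.comp_apply, hε, map_zero, zero_mul, add_zero, Fin.val_castSucc,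
        Fin.val_succ, pow_succ 2, pow_mul, sub_self]) hf
  exact h

theorem spec_sum {κ : Type*} [CommRing κ] (ρ : O →+* κ) (s : Finset (Finset (Fin r) × ℕ))
    (l : Finset (Fin r) × ℕ → O) :
    spec ρ r (∑ μ ∈ s, C (l μ) * mon X μ) =
      ∑ μ ∈ s, Polynomial.C (ρ (l μ)) * Polynomial.X ^ ex μ := by
  rw [map_sum]
  refine Finset.sum_congr rfl fun μ _ => ?_
  rw [map_mul, map_mon]
  simp only [spec, eval₂Hom_C, eval₂Hom_X', mon_pow, RingHom.comp_apply]

theorem spec_sum_ne_zero {κ : Type*} [CommRing κ] (ρ : O →+* κ)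
    (s : Finset (Finset (Fin r) × ℕ)) (l : Finset (Fin r) × ℕ → O) (μ₀ : Finset (Fin r) × ℕ)
    (hμ₀ : μ₀ ∈ s) (h : ρ (l μ₀) ≠ 0) : spec ρ r (∑ μ ∈ s, C (l μ) * mon X μ) ≠ 0 := by
  rw [spec_sum]
  intro h0
  have h3 := congrArg (fun f => Polynomial.coeff f (ex μ₀)) h0
  simp only [Polynomial.finsetSum_coeff, Polynomial.coeff_C_mul, Polynomial.coeff_X_pow,
    Polynomial.coeff_zero] at h3
  rw [Finset.sum_eq_single μ₀] at h3
  · rw [if_pos rfl, mul_one] at h3
    exact h h3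
  · intro μ _ hne
    rw [if_neg (fun h => hne (ex_injective h.symm)), mul_zero]
  · intro h; exact absurd hμ₀ h

end inj

section domain

variable {K F : Type*} [Field K] [Field F] [Algebra K F] {r : ℕ}

/-- The data of a valuation ring containing the constants, with the parameter in the maximal
ideal. -/
structure Place (K : Type*) [Field K] {F : Type*} [Field F] [Algebra K F] (ε : F) where
  /-- the valuation ring -/
  O : ValuationSubring F
  hK : ∀ a : K, algebraMap K F a ∈ O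
  hε : ε ∈ O
  hmax : (⟨ε, hε⟩ : O) ∈ IsLocalRing.maximalIdeal O

variable {ε : F} (P : Place K ε) (c : Fin r → Fin (r + 2) → Fin (r + 2) → K)

/-- The coefficients in the valuation ring. -/
def Place.cO (i : Fin r) (a b : Fin (r + 2)) : P.O := ⟨algebraMap K F (c i a b), P.hK _⟩

/-- The coefficients in the field. -/
def cF (F : Type*) [Field F] [Algebra K F] (c : Fin r → Fin (r + 2) → Fin (r + 2) → K)
    (i : Fin r) (a b : Fin (r + 2)) : F := algebraMap K F (c i a b)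

include P in
theorem FilR_eq_RedR (m : ℕ) : FilR (cF F c) ε m = RedR (cF F c) ε m :=
  le_antisymm (FilR_le_RedR_map P.O.subtype (P.cO c) ⟨ε, P.hε⟩ P.hmax m) (RedR_le_FilR _ _ _)

theorem exists_primitive
    (x : MvPolynomial (Fin (r + 1)) F ⧸ J (cF F c) ε) (hx : x ≠ 0) :
    ∃ (l : F) (f : MvPolynomial (Fin (r + 1)) P.O), l ≠ 0 ∧
      Ideal.Quotient.mk (J (cF F c) ε) (MvPolynomial.map P.O.subtype f) = l • x ∧
      spec (IsLocalRing.residue P.O) r f ≠ 0 := by
  obtain ⟨m, hm⟩ := exists_mem_FilR (cF F c) ε x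
  rw [FilR_eq_RedR P c m] at hm
  obtain ⟨g, -, hg⟩ := mem_RedR_exists (cF F c) ε m x hm
  have hne : g.support.Nonempty := by
    rw [Finset.nonempty_iff_ne_empty]
    intro h
    rw [h, Finset.sum_empty] at hg
    exact hx hg
  obtain ⟨μ₀, hμ₀, hmax⟩ := Finset.exists_max_image g.support (fun μ => P.O.valuation (g μ)) hne
  have hg0 : g μ₀ ≠ 0 := Finsupp.mem_support_iff.1 hμ₀
  have hv0 : P.O.valuation (g μ₀) ≠ 0 := (Valuation.ne_zero_iff _).2 hg0
  have hmem : ∀ μ, (g μ₀)⁻¹ * g μ ∈ P.O := by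
    intro μ
    by_cases hμ : μ ∈ g.support
    · rw [← ValuationSubring.valuation_le_one_iff, map_mul, map_inv₀, mul_comm,
        ← div_eq_mul_inv]
      exact div_le_one_of_le₀ (hmax μ hμ) zero_le
    · rw [Finsupp.notMem_support_iff.1 hμ, mul_zero]; exact P.O.zero_mem
  refine ⟨(g μ₀)⁻¹, ∑ μ ∈ g.support, C ⟨(g μ₀)⁻¹ * g μ, hmem μ⟩ * mon X μ, inv_ne_zero hg0,
    ?_, ?_⟩
  · rw [hg, Finset.smul_sum, map_sum, map_sum]
    refine Finset.sum_congr rfl fun μ _ => ?_
    rw [map_mul, map_mon_X, map_C, smul_smul]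
    change Ideal.Quotient.mk _ (C ((g μ₀)⁻¹ * g μ) * mon X μ) = _
    rw [← MvPolynomial.smul_eq_C_mul]
    rfl
  · refine spec_sum_ne_zero _ _ _ μ₀ hμ₀ ?_
    have : (⟨(g μ₀)⁻¹ * g μ₀, hmem μ₀⟩ : P.O) = 1 := Subtype.ext (inv_mul_cancel₀ hg0)
    rw [this, map_one]
    exact one_ne_zero

include P in
theorem isDomain_ring (hε : Transcendental K ε) :
    IsDomain (MvPolynomial (Fin (r + 1)) F ⧸ J (cF F c) ε) := by
  have hli := li_field c hε
  have hnt : Nontrivial (MvPolynomial (Fin (r + 1)) F ⧸ J (cF F c) ε) :=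
    ⟨⟨_, 0, hli.ne_zero (∅, 0)⟩⟩
  have hnz : NoZeroDivisors (MvPolynomial (Fin (r + 1)) F ⧸ J (cF F c) ε) := by
    constructor
    intro x y hxy
    by_contra hcon
    push Not at hcon
    obtain ⟨l, f, hl, hf, hf0⟩ := exists_primitive P c x hcon.1
    obtain ⟨l', f', hl', hf', hf0'⟩ := exists_primitive P c y hcon.2
    have h1 : Ideal.Quotient.mk (J (cF F c) ε) (MvPolynomial.map P.O.subtype (f * f')) = 0 := by
      rw [map_mul, map_mul, hf, hf', smul_mul_smul_comm, hxy, smul_zero]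
    have h2 : Ideal.Quotient.mk (J (P.cO c) ⟨ε, P.hε⟩) (f * f') = 0 := by
      apply bmap_injective P.O.subtype Subtype.val_injective (P.cO c) ⟨ε, P.hε⟩ P.hmax hli
      rw [bmap_mk, map_zero]
      exact h1
    have h3 := spec_eq_zero (IsLocalRing.residue P.O) (P.cO c) ⟨ε, P.hε⟩
      ((IsLocalRing.residue_eq_zero_iff _).2 P.hmax) (Ideal.Quotient.eq_zero_iff_mem.1 h2)
    rw [map_mul] at h3
    exact (mul_ne_zero hf0 hf0') h3
  exact NoZeroDivisors.to_isDomain _

end domain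

end Pool.Agent.Lib.MP_25ed17_al.Neg
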