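import Pool.Agent.Lib.MP_25ed17_al.Neg.Residue

/-!
Filtered domains with linear dimension growth: the dimension count of a principal quotient and of
its part at infinity.
-/

namespace Pool.Agent.Lib.MP_25ed17_al.Neg

open Module

section lin

variable {F V : Type*} [Field F] [AddCommGroup V] [Module F V]

/-- An exhaustive monotone sequence of subspaces of bounded dimension is eventually everything. -/
theorem exists_eq_top (W : ℕ → Submodule F V) (hm : Monotone W)
    (hfd : ∀ m, FiniteDimensional F (W m)) (hex : ∀ v, ∃ m, v ∈ W m) (c m₀ : ℕ)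
    (hc : ∀ m, m₀ ≤ m → finrank F (W m) ≤ c) : ∃ m₁, ∀ m, m₁ ≤ m → W m = ⊤ := by
  have hc' : ∀ m, finrank F (W m) ≤ c := by
    intro m
    rcases le_total m₀ m with h | h
    · exact hc m h
    · exact (Submodule.finrank_mono (hm h)).trans (hc m₀ le_rfl)
  obtain ⟨m₁, hm₁⟩ : ∃ m₁, ∀ m, finrank F (W m) ≤ finrank F (W m₁) := by
    classical
    have hex' : ∃ k, ∃ m, c - finrank F (W m) = k := ⟨_, 0, rfl⟩
    obtain ⟨m₁, h₁⟩ := Nat.find_spec hex'
    refine ⟨m₁, fun m => ?_⟩
    have h2 := Nat.find_min' hex' ⟨m, rfl⟩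
    rw [← h₁] at h2
    have := hc' m
    have := hc' m₁
    omega
  refine ⟨m₁, fun m hmm => ?_⟩
  rw [eq_top_iff]
  intro v _
  obtain ⟨m', hm'⟩ := hex v
  have h1 : W m₁ = W (max m₁ m') :=
    Submodule.eq_of_le_of_finrank_le (hm (le_max_left _ _)) (hm₁ _)
  have h2 : v ∈ W m₁ := by rw [h1]; exact hm (le_max_right _ _) hm'
  exact hm hmm h2

end lin

/-- A filtered algebra with linear dimension growth. -/
structure Filt (F B : Type*) [Field F] [CommRing B] [Algebra F B] (Δ : ℕ) where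
  /-- the filtration -/
  Fil : ℕ → Submodule F B
  mono : Monotone Fil
  fd : ∀ m, FiniteDimensional F (Fil m)
  exh : ∀ b, ∃ m, b ∈ Fil m
  one_mem : (1 : B) ∈ Fil 0
  mul_mem : ∀ {m n : ℕ} {a b : B}, a ∈ Fil m → b ∈ Fil n → a * b ∈ Fil (m + n)
  /-- the coordinate at infinity -/
  η : B
  η_mem : η ∈ Fil 1
  η_cancel : ∀ (m : ℕ) (g : B), η * g ∈ Fil (m + 1) → g ∈ Fil m
  /-- the bound after which the growth is linear -/
  m₀ : ℕ
  dim_succ : ∀ m, m₀ ≤ m → finrank F (Fil (m + 1)) = finrank F (Fil m) + Δ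

namespace Filt

variable {F B : Type*} [Field F] [CommRing B] [Algebra F B] {Δ : ℕ} (D : Filt F B Δ)

theorem η_pow_mem (k : ℕ) : D.η ^ k ∈ D.Fil k := by
  induction k with
  | zero => rw [pow_zero]; exact D.one_mem
  | succ k ih => rw [pow_succ]; exact D.mul_mem ih D.η_mem

theorem dim_add (X : ℕ) (m : ℕ) (hm : D.m₀ ≤ m) :
    finrank F (D.Fil (m + X)) = finrank F (D.Fil m) + X * Δ := by
  induction X with
  | zero => simp
  | succ X ih => rw [← add_assoc, D.dim_succ _ (by omega), ih]; ring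

theorem η_pow_cancel (k m : ℕ) (g : B) (h : D.η ^ k * g ∈ D.Fil (m + k)) : g ∈ D.Fil m := by
  induction k with
  | zero => simpa using h
  | succ k ih =>
    apply ih
    apply D.η_cancel
    rw [← mul_assoc, ← pow_succ', add_assoc]
    exact h

theorem Fil_zero_ne_top (hΔ : 0 < Δ) : D.Fil 0 ≠ ⊤ := by
  intro h
  have h1 : D.Fil D.m₀ = D.Fil (D.m₀ + 1) := by
    have h2 : D.Fil D.m₀ = ⊤ := top_le_iff.1 (h.ge.trans (D.mono (Nat.zero_le _)))
    have h3 : D.Fil (D.m₀ + 1) = ⊤ := top_le_iff.1 (h.ge.trans (D.mono (Nat.zero_le _)))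
    rw [h2, h3]
  have h2 := D.dim_succ D.m₀ le_rfl
  rw [← h1] at h2
  omega

theorem η_ne_zero (hΔ : 0 < Δ) : D.η ≠ 0 := by
  intro h
  apply D.Fil_zero_ne_top hΔ
  rw [eq_top_iff]
  intro g _
  apply D.η_cancel
  rw [h, zero_mul]
  exact Submodule.zero_mem _

theorem sub_cancel (c : F) (m : ℕ) (g : B) (h : (D.η - algebraMap F B c) * g ∈ D.Fil (m + 1)) :
    g ∈ D.Fil m := by
  classical
  obtain ⟨k, hk⟩ := D.exh g
  have key : ∀ k, g ∈ D.Fil (m + k) → g ∈ D.Fil m := by
    intro k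
    induction k with
    | zero => exact id
    | succ k ih =>
      intro hg
      apply ih
      apply D.η_cancel
      have : D.η * g = (D.η - algebraMap F B c) * g + c • g := by
        rw [Algebra.smul_def]; ring
      rw [this]
      exact Submodule.add_mem _ (D.mono (by omega) h) (Submodule.smul_mem _ _ hg)
  exact key k (D.mono (by omega) hk)

theorem sub_ne_zero (hΔ : 0 < Δ) (c : F) : D.η - algebraMap F B c ≠ 0 := by
  intro h
  apply D.Fil_zero_ne_top hΔ
  rw [eq_top_iff]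
  intro g _
  apply D.sub_cancel c
  rw [h, zero_mul]
  exact Submodule.zero_mem _

theorem sub_mem (c : F) : D.η - algebraMap F B c ∈ D.Fil 1 := by
  refine Submodule.sub_mem _ D.η_mem ?_
  rw [Algebra.algebraMap_eq_smul_one]
  exact Submodule.smul_mem _ _ (D.mono zero_le_one D.one_mem)

/-- The elements `g` with `u * g` in the `(m + X)`-th step. -/
def U (u : B) (X m : ℕ) : Submodule F B := (D.Fil (m + X)).comap (LinearMap.mulLeft F u)

theorem mem_U {u : B} {X m : ℕ} {g : B} : g ∈ D.U u X m ↔ u * g ∈ D.Fil (m + X) := Iff.rfl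

theorem Fil_le_U {u : B} {X : ℕ} (hu : u ∈ D.Fil X) (m : ℕ) : D.Fil m ≤ D.U u X m := by
  intro g hg
  rw [mem_U, mul_comm]
  exact D.mul_mem hg hu

/-- The image of the filtration in the principal quotient. -/
def W (u : B) (m : ℕ) : Submodule F (B ⧸ Ideal.span {u}) :=
  (D.Fil m).map (Ideal.Quotient.mkₐ F (Ideal.span {u})).toLinearMap

theorem W_mono (u : B) : Monotone (D.W u) := fun _ _ h => Submodule.map_mono (D.mono h)

theorem W_exh (u : B) (v : B ⧸ Ideal.span {u}) : ∃ m, v ∈ D.W u m := by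
  obtain ⟨b, rfl⟩ := Ideal.Quotient.mk_surjective v
  obtain ⟨m, hm⟩ := D.exh b
  exact ⟨m, b, hm, rfl⟩

variable [IsDomain B]

theorem finrank_U {u : B} (hu0 : u ≠ 0) (X m : ℕ) :
    FiniteDimensional F (D.U u X m) ∧
      finrank F (D.U u X m) + finrank F (D.W u (m + X)) = finrank F (D.Fil (m + X)) := by
  have := D.fd (m + X)
  let ρ : D.Fil (m + X) →ₗ[F] B ⧸ Ideal.span {u} :=
    (Ideal.Quotient.mkₐ F (Ideal.span {u})).toLinearMap ∘ₗ (D.Fil (m + X)).subtype
  have hr : LinearMap.range ρ = D.W u (m + X) := by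
    rw [LinearMap.range_comp, Submodule.range_subtype]; rfl
  let f : D.U u X m →ₗ[F] LinearMap.ker ρ :=
    { toFun := fun g => ⟨⟨u * g, g.2⟩, by
        rw [LinearMap.mem_ker]
        exact Ideal.Quotient.eq_zero_iff_mem.2
          (Ideal.mul_mem_right _ _ (Ideal.mem_span_singleton_self u))⟩
      map_add' := fun g h => by
        apply Subtype.ext; apply Subtype.ext
        exact mul_add u _ _
      map_smul' := fun c g => by
        apply Subtype.ext; apply Subtype.ext
        exact Algebra.mul_smul_comm c u _ }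
  have hf : Function.Bijective f := by
    constructor
    · intro g h hgh
      apply Subtype.ext
      have := congrArg (fun z : LinearMap.ker ρ => ((z : D.Fil (m + X)) : B)) hgh
      exact mul_left_cancel₀ hu0 this
    · rintro ⟨⟨b, hb⟩, hb'⟩
      rw [LinearMap.mem_ker] at hb'
      have h1 : b ∈ Ideal.span {u} := Ideal.Quotient.eq_zero_iff_mem.1 hb'
      obtain ⟨g, rfl⟩ := Ideal.mem_span_singleton'.1 h1
      refine ⟨⟨g, ?_⟩, ?_⟩
      · rw [mem_U, mul_comm]; exact hb
      · apply Subtype.ext; apply Subtype.ext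
        exact mul_comm u g
  let e : D.U u X m ≃ₗ[F] LinearMap.ker ρ := LinearEquiv.ofBijective f hf
  refine ⟨Module.Finite.equiv e.symm, ?_⟩
  rw [e.finrank_eq, ← hr, add_comm]
  exact ρ.finrank_range_add_finrank_ker

theorem quot {u : B} (hu0 : u ≠ 0) {X : ℕ} (hu : u ∈ D.Fil X) :
    FiniteDimensional F (B ⧸ Ideal.span {u}) ∧
      ∃ m₁, ∀ m, m₁ ≤ m →
        finrank F (D.U u X m) + finrank F (B ⧸ Ideal.span {u}) =
          finrank F (D.Fil m) + X * Δ := by
  have hfd : ∀ m, FiniteDimensional F (D.W u m) := fun m => by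
    have := D.fd m
    unfold W
    infer_instance
  obtain ⟨m₁, hm₁⟩ := exists_eq_top (D.W u) (D.W_mono u) hfd (D.W_exh u) (X * Δ) (D.m₀ + X)
    (by
      intro m hm
      obtain ⟨m', rfl⟩ : ∃ m', m = m' + X := ⟨m - X, by omega⟩
      obtain ⟨h1, h2⟩ := D.finrank_U hu0 X m'
      have h3 := Submodule.finrank_mono (D.Fil_le_U hu m')
      have h4 := D.dim_add X m' (by omega)
      omega)
  have hfin : FiniteDimensional F (B ⧸ Ideal.span {u}) := by
    have h := hm₁ m₁ le_rfl
    have h2 := hfd m₁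
    rw [h] at h2
    exact Module.Finite.of_surjective (⊤ : Submodule F _).subtype fun v => ⟨⟨v, trivial⟩, rfl⟩
  refine ⟨hfin, max m₁ D.m₀, fun m hm => ?_⟩
  obtain ⟨h1, h2⟩ := D.finrank_U hu0 X m
  have h3 := hm₁ (m + X) (by omega)
  have h4 := D.dim_add X m (by omega)
  rw [h3, finrank_top] at h2
  omega

/-- The fibres of the coordinate at infinity have dimension `Δ`. -/
theorem fibre (hΔ : 0 < Δ) (c : F) :
    FiniteDimensional F (B ⧸ Ideal.span {D.η - algebraMap F B c}) ∧
      finrank F (B ⧸ Ideal.span {D.η - algebraMap F B c}) = Δ := by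
  obtain ⟨h1, m₁, h2⟩ := D.quot (D.sub_ne_zero hΔ c) (D.sub_mem c)
  refine ⟨h1, ?_⟩
  have h3 : D.U (D.η - algebraMap F B c) 1 m₁ = D.Fil m₁ :=
    le_antisymm (fun g hg => D.sub_cancel c m₁ g hg) (D.Fil_le_U (D.sub_mem c) m₁)
  have h4 := h2 m₁ le_rfl
  rw [h3] at h4
  omega

/-! ### The chart at infinity -/

omit [IsDomain B]

variable (Q : Type*) [Field Q] [Algebra B Q] [Algebra F Q] [IsScalarTower F B Q]


/-- Fractions with powers of `η` as denominators, of bounded degree. -/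
def Binf : Subalgebra F Q where
  carrier := {z | ∃ m, ∃ b ∈ D.Fil m, z * algebraMap B Q D.η ^ m =
    algebraMap B Q b}
  mul_mem' := by
    rintro z w ⟨m, b, hb, hz⟩ ⟨n, c, hc, hw⟩
    refine ⟨m + n, b * c, D.mul_mem hb hc, ?_⟩
    rw [map_mul, ← hz, ← hw, pow_add]; ring
  add_mem' := by
    rintro z w ⟨m, b, hb, hz⟩ ⟨n, c, hc, hw⟩
    refine ⟨m + n, b * D.η ^ n + D.η ^ m * c, Submodule.add_mem _
      (D.mul_mem hb (D.η_pow_mem n)) (D.mul_mem (D.η_pow_mem m) hc), ?_⟩
    rw [map_add, map_mul, map_mul, map_pow, map_pow, ← hz, ← hw, pow_add]; ring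
  algebraMap_mem' c := by
    refine ⟨0, algebraMap F B c, ?_, ?_⟩
    · rw [Algebra.algebraMap_eq_smul_one]
      exact Submodule.smul_mem _ _ D.one_mem
    · rw [pow_zero, mul_one, ← IsScalarTower.algebraMap_apply]

variable {Q} in
theorem mem_Binf {z : Q} : z ∈ D.Binf Q ↔ ∃ m, ∃ b ∈ D.Fil m,
    z * algebraMap B Q D.η ^ m = algebraMap B Q b := Iff.rfl

/-- The module of fractions defined by the spaces `U`. -/
def Uinf (u : B) (X : ℕ) : Submodule (D.Binf Q) Q where
  carrier := {z | ∃ m, ∃ b ∈ D.U u X m, z * algebraMap B Q D.η ^ m =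
    algebraMap B Q b}
  add_mem' := by
    rintro z w ⟨m, b, hb, hz⟩ ⟨n, c, hc, hw⟩
    refine ⟨m + n, b * D.η ^ n + D.η ^ m * c, Submodule.add_mem _ ?_ ?_, ?_⟩
    · rw [mem_U, ← mul_assoc, add_right_comm]
      exact D.mul_mem hb (D.η_pow_mem n)
    · rw [mem_U, mul_left_comm, add_assoc]
      exact D.mul_mem (D.η_pow_mem m) hc
    · rw [map_add, map_mul, map_mul, map_pow, map_pow, ← hz, ← hw, pow_add]; ring
  zero_mem' := ⟨0, 0, Submodule.zero_mem _, by simp⟩
  smul_mem' := by
    rintro ⟨z, m, b, hb, hz⟩ w ⟨n, c, hc, hw⟩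
    refine ⟨m + n, b * c, ?_, ?_⟩
    · rw [mem_U, mul_left_comm, add_assoc]
      exact D.mul_mem hb hc
    · change (z * w) * _ = _
      rw [map_mul, ← hz, ← hw, pow_add]; ring

variable {Q} in
theorem mem_Uinf {u : B} {X : ℕ} {z : Q} : z ∈ D.Uinf Q u X ↔ ∃ m, ∃ b ∈ D.U u X m,
    z * algebraMap B Q D.η ^ m = algebraMap B Q b := Iff.rfl

/-- The chart at infinity as a submodule of the module `Uinf`. -/
def Bsub (u : B) (X : ℕ) : Submodule (D.Binf Q) (D.Uinf Q u X) where
  carrier := {z | (z : Q) ∈ D.Binf Q}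
  add_mem' := fun hz hw => (D.Binf Q).add_mem hz hw
  zero_mem' := (D.Binf Q).zero_mem
  smul_mem' := fun c _ hz => (D.Binf Q).mul_mem c.2 hz

variable {Q} in
theorem mem_Bsub {u : B} {X : ℕ} {z : D.Uinf Q u X} :
    z ∈ D.Bsub Q u X ↔ (z : Q) ∈ D.Binf Q := Iff.rfl

variable [IsDomain B]

/-- The part at infinity has dimension `X * Δ` minus that of the principal quotient. -/
theorem quot_inf (hQ : Function.Injective (algebraMap B Q)) (hΔ : 0 < Δ) {u : B} (hu0 : u ≠ 0) {X : ℕ} (hu : u ∈ D.Fil X) :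
    FiniteDimensional F (D.Uinf Q u X ⧸ D.Bsub Q u X) ∧
      finrank F (D.Uinf Q u X ⧸ D.Bsub Q u X) + finrank F (B ⧸ Ideal.span {u}) = X * Δ := by
  obtain ⟨-, m₁, hm₁⟩ := D.quot hu0 hu
  set y : Q := algebraMap B Q D.η with hy
  have hy0 : y ≠ 0 := by
    rw [hy, Ne, map_eq_zero_iff _ hQ]
    exact D.η_ne_zero hΔ
  have hdiv : ∀ (m : ℕ) (b : B), algebraMap B Q b / y ^ m * y ^ m =
      algebraMap B Q b := fun m b => div_mul_cancel₀ _ (pow_ne_zero _ hy0)
  let ψ : ∀ m, D.U u X m →ₗ[F] (D.Uinf Q u X ⧸ D.Bsub Q u X) := fun m =>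
    { toFun := fun g => Submodule.Quotient.mk ⟨algebraMap B Q g / y ^ m,
        m, g, g.2, hdiv m g⟩
      map_add' := fun g h => by
        rw [← Submodule.Quotient.mk_add]
        congr 1
        apply Subtype.ext
        change _ = _ + _
        simp only [Submodule.coe_add, map_add]
        exact add_div _ _ _
      map_smul' := fun c g => by
        rw [RingHom.id_apply, ← Submodule.Quotient.mk_smul]
        congr 1
        apply Subtype.ext
        change _ = c • (_ / _)
        simp only [Submodule.coe_smul]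
        rw [Algebra.smul_def, Algebra.smul_def, map_mul, mul_div_assoc,
          ← IsScalarTower.algebraMap_apply] }
  have hψ : ∀ m (g : D.U u X m), ψ m g = Submodule.Quotient.mk
      ⟨algebraMap B Q g / y ^ m, m, g, g.2, hdiv m g⟩ := fun m g => rfl
  have hker : ∀ m (g : D.U u X m), ψ m g = 0 ↔ (g : B) ∈ D.Fil m := by
    intro m g
    rw [hψ, Submodule.Quotient.mk_eq_zero, mem_Bsub]
    constructor
    · rintro ⟨k, b, hb, hk⟩
      change algebraMap B Q g / y ^ m * y ^ k = _ at hk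
      have h1 : algebraMap B Q (D.η ^ k * g) =
          algebraMap B Q (D.η ^ m * b) := by
        rw [map_mul, map_mul, map_pow, map_pow, ← hk, ← hy]
        have := hdiv m g
        calc y ^ k * algebraMap B Q g
            = y ^ k * (algebraMap B Q g / y ^ m * y ^ m) := by rw [this]
          _ = _ := by ring
      have h2 := hQ h1
      apply D.η_pow_cancel k
      rw [h2]
      exact D.mul_mem (D.η_pow_mem m) hb
    · intro h
      exact ⟨m, g, h, hdiv m g⟩
  have hkerf : ∀ m, finrank F (LinearMap.ker (ψ m)) = finrank F (D.Fil m) := by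
    intro m
    let f : D.Fil m →ₗ[F] LinearMap.ker (ψ m) :=
      { toFun := fun g => ⟨⟨g, D.Fil_le_U hu m g.2⟩, (hker m _).2 g.2⟩
        map_add' := fun g h => rfl
        map_smul' := fun c g => rfl }
    refine (LinearEquiv.ofBijective f ⟨fun g h hgh => ?_, fun g => ?_⟩).finrank_eq.symm
    · apply Subtype.ext
      exact congrArg (fun z : LinearMap.ker (ψ m) => ((z : D.U u X m) : B)) hgh
    · exact ⟨⟨g.1.1, (hker m g.1).1 g.2⟩, rfl⟩
  have hfdU : ∀ m, FiniteDimensional F (D.U u X m) := fun m => (D.finrank_U hu0 X m).1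
  have hrange : ∀ m, finrank F (LinearMap.range (ψ m)) + finrank F (D.Fil m) =
      finrank F (D.U u X m) := by
    intro m
    have := hfdU m
    rw [← hkerf m]
    exact (ψ m).finrank_range_add_finrank_ker
  have hmono1 : ∀ m, LinearMap.range (ψ m) ≤ LinearMap.range (ψ (m + 1)) := by
    rintro m _ ⟨g, rfl⟩
    refine ⟨⟨D.η * g, ?_⟩, ?_⟩
    · rw [mem_U, mul_left_comm, add_right_comm, add_comm _ 1]
      exact D.mul_mem D.η_mem g.2
    · rw [hψ, hψ]
      congr 1
      apply Subtype.ext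
      change algebraMap B Q (D.η * g) / y ^ (m + 1) = _ / _
      rw [map_mul, ← hy, pow_succ', mul_div_mul_left _ _ hy0]
  have hmono : Monotone fun m => LinearMap.range (ψ m) := monotone_nat_of_le_succ hmono1
  have hexh : ∀ v, ∃ m, v ∈ LinearMap.range (ψ m) := by
    intro v
    obtain ⟨⟨z, m, g, hg, hz⟩, rfl⟩ := Submodule.Quotient.mk_surjective _ v
    refine ⟨m, ⟨g, hg⟩, ?_⟩
    rw [hψ]
    congr 1
    apply Subtype.ext
    change algebraMap B Q g / y ^ m = z
    rw [← hz, ← hy]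
    exact mul_div_cancel_right₀ _ (pow_ne_zero _ hy0)
  obtain ⟨m₂, hm₂⟩ := exists_eq_top (fun m => LinearMap.range (ψ m)) hmono
    (fun m => by
      have := hfdU m
      infer_instance) hexh (X * Δ) m₁
    (fun m hm => by
      have h1 := hrange m
      have h2 := hm₁ m hm
      omega)
  have hfin : FiniteDimensional F (D.Uinf Q u X ⧸ D.Bsub Q u X) := by
    have h : LinearMap.range (ψ m₂) = ⊤ := hm₂ m₂ le_rfl
    have h2 : FiniteDimensional F (LinearMap.range (ψ m₂)) := by
      have := hfdU m₂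
      infer_instance
    rw [h] at h2
    exact Module.Finite.of_surjective (⊤ : Submodule F _).subtype fun v => ⟨⟨v, trivial⟩, rfl⟩
  refine ⟨hfin, ?_⟩
  have h1 := hrange (max m₁ m₂)
  have h2 := hm₁ (max m₁ m₂) (le_max_left _ _)
  have h3 : LinearMap.range (ψ (max m₁ m₂)) = ⊤ := hm₂ (max m₁ m₂) (le_max_right _ _)
  rw [h3, finrank_top] at h1
  omega

end Filt

end Pool.Agent.Lib.MP_25ed17_al.Neg
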