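import Pool.Agent.Lib.MP_25ed17_al.Neg.Curve5
import Pool.Agent.Lib.MP_25ed17_al.Neg.Filt

/-!
Existence of a place at which the parameter vanishes; the degree filtration of the ring.
-/

namespace Pool.Agent.Lib.MP_25ed17_al.Neg

open MvPolynomial Module

theorem exists_place_param {K F : Type*} [Field K] [Field F] [Algebra K F] {ε : F}
    (hε : Transcendental K ε) : Nonempty (Place K ε) := by
  let φ : Polynomial K →ₐ[K] F := Polynomial.aeval ε
  have hφ : Function.Injective φ := transcendental_iff_injective.1 hε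
  let A : Subring F := φ.toRingHom.range
  let e : A := ⟨ε, Polynomial.X, Polynomial.aeval_X _⟩
  have hI : Ideal.span {e} ≠ ⊤ := by
    intro h
    rw [Ideal.eq_top_iff_one, Ideal.mem_span_singleton] at h
    obtain ⟨⟨_, p, rfl⟩, hp⟩ := h
    have h1 : (1 : F) = ε * φ p := congrArg (fun x : A => (x : F)) hp
    have h2 : φ 1 = φ (Polynomial.X * p) := by
      rw [map_one, map_mul, h1]
      congr 1
      exact (Polynomial.aeval_X _).symm
    have h3 := hφ h2
    have h4 := congrArg (Polynomial.eval 0) h3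
    simp at h4
  obtain ⟨V, hV, hV2⟩ := Ideal.image_subset_nonunits_valuationSubring _ hI
  have h1 : ε ∈ V.nonunits := hV2 ⟨e, Ideal.mem_span_singleton_self e, rfl⟩
  refine ⟨⟨V, fun a => hV ⟨Polynomial.C a, Polynomial.aeval_C _ _⟩, V.nonunits_subset h1, ?_⟩⟩
  have h2 := V.coe_mem_nonunits_iff (a := ⟨ε, V.nonunits_subset h1⟩)
  exact h2.1 h1

section basis

variable {K F : Type*} [Field K] [Field F] [Algebra K F] {r : ℕ} {ε : F}
  (P : Place K ε) (hε : Transcendental K ε) (c : Fin r → Fin (r + 2) → Fin (r + 2) → K)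

include P hε in
theorem exists_basis : ∃ b : Basis (Finset (Fin r) × ℕ) F
    (MvPolynomial (Fin (r + 1)) F ⧸ J (cF F c) ε),
      ∀ μ, b μ = Ideal.Quotient.mk (J (cF F c) ε) (mon X μ) := by
  have hli : LinearIndependent F (fun μ : Finset (Fin r) × ℕ =>
    Ideal.Quotient.mk (J (cF F c) ε) (mon X μ)) := li_field c hε
  refine ⟨Basis.mk hli ?_, fun μ => Basis.mk_apply _ _ _⟩
  intro x _
  obtain ⟨m, hm⟩ := exists_mem_FilR (cF F c) ε x
  rw [FilR_eq_RedR P c m, RedR] at hm
  exact Submodule.span_mono (Set.image_subset_range _ _) hm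

theorem finrank_RedR (b : Basis (Finset (Fin r) × ℕ) F
    (MvPolynomial (Fin (r + 1)) F ⧸ J (cF F c) ε))
    (hb : ∀ μ, b μ = Ideal.Quotient.mk (J (cF F c) ε) (mon X μ)) (m : ℕ) :
    finrank F (RedR (cF F c) ε m) = ∑ I : Finset (Fin r), (m + 1 - I.card) := by
  let g : (Σ I : Finset (Fin r), Fin (m + 1 - I.card)) → Finset (Fin r) × ℕ :=
    fun z => (z.1, z.2)
  have hg : Function.Injective g := by
    rintro ⟨I, j⟩ ⟨I', j'⟩ h
    simp only [g, Prod.mk.injEq] at h
    obtain ⟨rfl, h⟩ := h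
    rw [Fin.ext h]
  have h1 : RedR (cF F c) ε m = Submodule.span F (Set.range (b ∘ g)) := by
    rw [RedR]
    congr 1
    ext x
    constructor
    · rintro ⟨⟨I, j⟩, hμ, rfl⟩
      have hμ' : I.card + j ≤ m := hμ
      exact ⟨⟨I, ⟨j, by omega⟩⟩, hb _⟩
    · rintro ⟨⟨I, j⟩, rfl⟩
      refine ⟨(I, (j : ℕ)), ?_, (hb _).symm⟩
      have := j.2
      change I.card + (j : ℕ) ≤ m
      omega
  rw [h1, finrank_span_eq_card (b.linearIndependent.comp g hg), Fintype.card_sigma]
  simp only [Fintype.card_fin]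

theorem mul_last (μ : Finset (Fin r) × ℕ) :
    Ideal.Quotient.mk (J (cF F c) ε) (X (Fin.last r)) *
      Ideal.Quotient.mk (J (cF F c) ε) (mon X μ) =
    Ideal.Quotient.mk (J (cF F c) ε) (mon X (μ.1, μ.2 + 1)) := by
  rw [← map_mul]
  congr 1
  simp only [mon, pow_succ]
  ring

theorem card_sum_succ (m : ℕ) (hm : r ≤ m) :
    ∑ I : Finset (Fin r), (m + 1 + 1 - I.card) = ∑ I : Finset (Fin r), (m + 1 - I.card) + 2 ^ r := by
  have h1 : ∀ I : Finset (Fin r), m + 1 + 1 - I.card = (m + 1 - I.card) + 1 := by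
    intro I
    have := Finset.card_le_univ I
    rw [Fintype.card_fin] at this
    omega
  rw [Finset.sum_congr rfl fun I _ => h1 I, Finset.sum_add_distrib]
  simp

/-- The degree filtration. -/
noncomputable def filt (b : Basis (Finset (Fin r) × ℕ) F
    (MvPolynomial (Fin (r + 1)) F ⧸ J (cF F c) ε))
    (hb : ∀ μ, b μ = Ideal.Quotient.mk (J (cF F c) ε) (mon X μ)) :
    Filt F (MvPolynomial (Fin (r + 1)) F ⧸ J (cF F c) ε) (2 ^ r) where
  Fil m := FilR (cF F c) ε m
  mono := by
    rintro m n hmn _ ⟨f, hf, rfl⟩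
    rw [SetLike.mem_coe, mem_restrictTotalDegree] at hf
    exact mk_mem_FilR _ _ (hf.trans hmn)
  fd m := by
    unfold FilR
    infer_instance
  exh := exists_mem_FilR _ _
  one_mem := by
    rw [← map_one (Ideal.Quotient.mk (J (cF F c) ε))]
    exact mk_mem_FilR _ _ (by rw [totalDegree_one])
  mul_mem := by
    rintro m n _ _ ⟨f, hf, rfl⟩ ⟨g, hg, rfl⟩
    rw [SetLike.mem_coe, mem_restrictTotalDegree] at hf hg
    change Ideal.Quotient.mk _ f * Ideal.Quotient.mk _ g ∈ _
    rw [← map_mul]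
    exact mk_mem_FilR _ _ ((totalDegree_mul _ _).trans (add_le_add hf hg))
  η := Ideal.Quotient.mk _ (X (Fin.last r))
  η_mem := mk_mem_FilR _ _ ((totalDegree_monomial_le _ _).trans (by simp))
  η_cancel := by
    intro m g hg
    have hbi : ∀ m, RedR (cF F c) ε m = Submodule.span F (b '' {μ | dg μ ≤ m}) := by
      intro m
      rw [RedR]
      congr 1
      exact Set.image_congr fun μ _ => (hb μ).symm
    rw [FilR_eq_RedR P c, hbi, Basis.mem_span_image] at hg ⊢
    let sh : Finset (Fin r) × ℕ → Finset (Fin r) × ℕ := fun μ => (μ.1, μ.2 + 1)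
    have hsh : Function.Injective sh := by
      rintro ⟨I, j⟩ ⟨I', j'⟩ h
      simp only [sh, Prod.mk.injEq, Nat.add_right_cancel_iff] at h
      rw [h.1, h.2]
    have key : (b.repr : _ →ₗ[F] _) ∘ₗ
        LinearMap.mulLeft F (Ideal.Quotient.mk (J (cF F c) ε) (X (Fin.last r))) =
        Finsupp.lmapDomain F F sh ∘ₗ (b.repr : _ →ₗ[F] _) := by
      refine b.ext fun μ => ?_
      simp only [LinearMap.comp_apply, LinearMap.mulLeft_apply, LinearEquiv.coe_coe,
        Basis.repr_self, Finsupp.lmapDomain_apply, Finsupp.mapDomain_single]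
      rw [hb, mul_last, ← hb, Basis.repr_self]
    have key2 : b.repr (Ideal.Quotient.mk (J (cF F c) ε) (X (Fin.last r)) * g) =
        Finsupp.mapDomain sh (b.repr g) := congrArg (fun f => f g) key
    rw [key2] at hg
    intro μ hμ
    have h1 : sh μ ∈ (Finsupp.mapDomain sh (b.repr g)).support := by
      rw [Finsupp.mem_support_iff, Finsupp.mapDomain_apply hsh]
      exact Finsupp.mem_support_iff.1 hμ
    have h2 : dg (sh μ) ≤ m + 1 := hg h1
    change μ.1.card + (μ.2 + 1) ≤ m + 1 at h2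
    change μ.1.card + μ.2 ≤ m
    omega
  m₀ := r
  dim_succ := by
    intro m hm
    rw [FilR_eq_RedR P c, FilR_eq_RedR P c, finrank_RedR c b hb, finrank_RedR c b hb,
      card_sum_succ m hm]

theorem card_sum_two (m : ℕ) (hm : r ≤ m) :
    2 * ∑ I : Finset (Fin r), (m + 1 - I.card) = 2 ^ r * (2 * (m + 1) - r) := by
  have h1 : ∀ I : Finset (Fin r), I.card ≤ r := fun I => by
    have := Finset.card_le_univ I
    rwa [Fintype.card_fin] at this
  have h2 : ∑ I : Finset (Fin r), (m + 1 - I.card) =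
      ∑ I : Finset (Fin r), (m + 1 - Iᶜ.card) :=
    (Equiv.sum_comp (Function.Involutive.toPerm (compl : Finset (Fin r) → Finset (Fin r))
      compl_involutive) fun I => (m + 1 - I.card)).symm
  have h3 : ∑ I : Finset (Fin r), (m + 1 - I.card) + ∑ I : Finset (Fin r), (m + 1 - Iᶜ.card) =
      ∑ I : Finset (Fin r), (2 * (m + 1) - r) := by
    rw [← Finset.sum_add_distrib]
    refine Finset.sum_congr rfl fun I _ => ?_
    rw [Finset.card_compl, Fintype.card_fin]
    have := h1 I
    omega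
  rw [← h2, Finset.sum_const, Finset.card_univ, Fintype.card_finset, Fintype.card_fin,
    smul_eq_mul, ← two_mul] at h3
  exact h3

end basis

end Pool.Agent.Lib.MP_25ed17_al.Neg
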