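import Pool.Agent.Lib.MP_25ed17_al.Neg.Curve6
import Pool.Agent.Lib.MP_25ed17_al.Neg.Count

/-!
Residue fields of the ring and of its chart at infinity; the contradiction.
-/

namespace Pool.Agent.Lib.MP_25ed17_al.Neg

open MvPolynomial Module

section hom

variable {S T : Type*} [CommRing S] [CommRing T] {r : ℕ}

/-- The homogeneous equations. -/
def Hv (c : Fin r → Fin (r + 2) → Fin (r + 2) → S) (ε : S) (y : Fin (r + 2) → S) (i : Fin r) : S :=
  y i.castSucc.castSucc ^ 2 - y i.succ.castSucc * y (Fin.last (r + 1)) + ε * qf c y i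

theorem map_Hv (f : S →+* T) (c : Fin r → Fin (r + 2) → Fin (r + 2) → S) (ε : S)
    (y : Fin (r + 2) → S) (i : Fin r) :
    f (Hv c ε y i) = Hv (fun i a b => f (c i a b)) (f ε) (fun j => f (y j)) i := by
  simp only [Hv, map_add, map_sub, map_mul, map_pow, map_qf]

theorem Hv_snoc (c : Fin r → Fin (r + 2) → Fin (r + 2) → S) (ε : S) (x : Fin (r + 1) → S)
    (i : Fin r) : Hv c ε (Fin.snoc (α := fun _ => S) x 1) i = Gv c ε x i := by
  rw [Hv, Gv, Fin.snoc_castSucc, Fin.snoc_castSucc, Fin.snoc_last, mul_one]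

theorem Hv_mul (c : Fin r → Fin (r + 2) → Fin (r + 2) → S) (ε l : S) (y : Fin (r + 2) → S)
    (i : Fin r) : Hv c ε (fun a => l * y a) i = l ^ 2 * Hv c ε y i := by
  rw [Hv, Hv, qf_mul]
  ring

end hom

theorem exists_algHom {F A : Type*} [Field F] [CommRing A] [Algebra F A] (M : Ideal A)
    (hM : M.IsMaximal) (h : finrank F (A ⧸ M) = 1) : Nonempty (A →ₐ[F] F) := by
  have hn : Nontrivial (A ⧸ M) := Ideal.Quotient.nontrivial_iff.2 hM.ne_top
  have hb := Algebra.finrank_eq_one_iff_bijective_algebraMap.1 h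
  let e : F ≃ₐ[F] (A ⧸ M) := AlgEquiv.ofBijective (Algebra.ofId F (A ⧸ M)) hb
  exact ⟨(e.symm : (A ⧸ M) →ₐ[F] F).comp (Ideal.Quotient.mkₐ F M)⟩

section res

variable {K F : Type} [Field K] [Field F] [Algebra K F] {r : ℕ} {ε : F}
  (c : Fin r → Fin (r + 2) → Fin (r + 2) → K)

/-- No nontrivial zeros of the homogeneous equations. -/
def Aniso (F : Type) [Field F] [Algebra K F] (ε : F)
    (c : Fin r → Fin (r + 2) → Fin (r + 2) → K) : Prop :=
  ∀ y : Fin (r + 2) → F, (∀ i, Hv (cF F c) ε y i = 0) → y = 0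

theorem no_hom (hA : Aniso F ε c)
    (ψ : (MvPolynomial (Fin (r + 1)) F ⧸ J (cF F c) ε) →ₐ[F] F) : False := by
  have h1 := hA (Fin.snoc (α := fun _ => F)
    (fun j => ψ (Ideal.Quotient.mk _ (X j))) 1) (by
      intro i
      rw [Hv_snoc]
      have h2 : (ψ.toRingHom.comp (Ideal.Quotient.mk (J (cF F c) ε)))
          (Gv (fun i a b => C (cF F c i a b)) (C ε) X i) = 0 := by
        rw [RingHom.comp_apply, Ideal.Quotient.eq_zero_iff_mem.2, map_zero]
        exact Ideal.subset_span ⟨i, rfl⟩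
      rw [map_Gv] at h2
      have h3 : ∀ a : F, (ψ.toRingHom.comp (Ideal.Quotient.mk (J (cF F c) ε))) (C a) = a := by
        intro a
        exact ψ.commutes a
      simp only [h3] at h2
      exact h2)
  have h2 := congrFun h1 (Fin.last (r + 1))
  rw [Fin.snoc_last] at h2
  exact one_ne_zero h2

theorem no_hom_inf (hA : Aniso F ε c) {Δ : ℕ} (hΔ : 0 < Δ)
    (D : Filt F (MvPolynomial (Fin (r + 1)) F ⧸ J (cF F c) ε) Δ)
    (hD : D.η = Ideal.Quotient.mk _ (X (Fin.last r)))
    (hX : ∀ j, Ideal.Quotient.mk _ (X j) ∈ D.Fil 1)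
    (Q : Type) [Field Q] [Algebra (MvPolynomial (Fin (r + 1)) F ⧸ J (cF F c) ε) Q] [Algebra F Q]
    [IsScalarTower F (MvPolynomial (Fin (r + 1)) F ⧸ J (cF F c) ε) Q]
    (hQ : Function.Injective (algebraMap (MvPolynomial (Fin (r + 1)) F ⧸ J (cF F c) ε) Q))
    (ψ : D.Binf Q →ₐ[F] F) : False := by
  set B := MvPolynomial (Fin (r + 1)) F ⧸ J (cF F c) ε with hB
  let x : Fin (r + 1) → B := fun j => Ideal.Quotient.mk _ (X j)
  let yB : Fin (r + 2) → B := Fin.snoc (α := fun _ => B) x 1
  have hyB : ∀ a, yB a ∈ D.Fil 1 := by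
    intro a
    refine Fin.lastCases ?_ (fun j => ?_) a
    · simp only [yB, Fin.snoc_last]
      exact D.mono zero_le_one D.one_mem
    · simp only [yB, Fin.snoc_castSucc]
      exact hX j
  have hη : algebraMap B Q D.η ≠ 0 := by
    rw [Ne, map_eq_zero_iff _ hQ]
    exact D.η_ne_zero hΔ
  let y : Fin (r + 2) → D.Binf Q := fun a =>
    ⟨(algebraMap B Q D.η)⁻¹ * algebraMap B Q (yB a), 1, yB a, hyB a, by
      rw [pow_one, mul_comm, mul_inv_cancel_left₀ hη]⟩
  have hG : ∀ i, Gv (fun i a b => algebraMap F B (cF F c i a b)) (algebraMap F B ε) x i = 0 := by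
    intro i
    have h2 : (Ideal.Quotient.mk (J (cF F c) ε))
        (Gv (fun i a b => C (cF F c i a b)) (C ε) X i) = 0 := by
      rw [Ideal.Quotient.eq_zero_iff_mem]
      exact Ideal.subset_span ⟨i, rfl⟩
    rw [map_Gv] at h2
    exact h2
  have hH : ∀ i, Hv (fun i a b => algebraMap F (D.Binf Q) (cF F c i a b))
      (algebraMap F (D.Binf Q) ε) y i = 0 := by
    intro i
    apply Subtype.val_injective
    have h1 := map_Hv (D.Binf Q).val.toRingHom (fun i a b => algebraMap F (D.Binf Q) (cF F c i a b))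
      (algebraMap F (D.Binf Q) ε) y i
    have h2 := map_Hv (algebraMap B Q) (fun i a b => algebraMap F B (cF F c i a b))
      (algebraMap F B ε) yB i
    rw [Hv_snoc, hG i, map_zero] at h2
    have h3 := Hv_mul (fun i a b => algebraMap B Q (algebraMap F B (cF F c i a b)))
      (algebraMap B Q (algebraMap F B ε)) (algebraMap B Q D.η)⁻¹
      (fun a => algebraMap B Q (yB a)) i
    rw [← h2, mul_zero] at h3
    refine h1.trans (Eq.trans ?_ h3)
    have h4 : ∀ a : F, algebraMap B Q (algebraMap F B a) = algebraMap F Q a := fun a =>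
      (IsScalarTower.algebraMap_apply F B Q a).symm
    simp only [h4]
    rfl
  have h1 := hA (fun a => ψ (y a)) (by
    intro i
    have h2 := map_Hv ψ.toRingHom (fun i a b => algebraMap F (D.Binf Q) (cF F c i a b))
      (algebraMap F (D.Binf Q) ε) y i
    rw [hH i, map_zero] at h2
    have h3 : ∀ a : F, ψ.toRingHom (algebraMap F (D.Binf Q) a) = a := fun a => ψ.commutes a
    simp only [h3] at h2
    exact h2.symm)
  have h2 := congrFun h1 (Fin.last r).castSucc
  have h3 : y (Fin.last r).castSucc = 1 := by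
    apply Subtype.ext
    change (algebraMap B Q D.η)⁻¹ * algebraMap B Q (yB (Fin.last r).castSucc) = 1
    have h4 : yB (Fin.last r).castSucc = D.η := by
      simp only [yB, Fin.snoc_castSucc, hD, x]
    rw [h4, inv_mul_cancel₀ hη]
  simp only [h3, map_one] at h2
  exact one_ne_zero h2

end res

/-- There is no field with the stated properties. -/
theorem curve_false {K F : Type} [Field K] [Field F] [CharZero F] [Algebra K F] {ε : F}
    (hε : Transcendental K ε) {r : ℕ} (hr : r = 21) (c : Fin r → Fin (r + 2) → Fin (r + 2) → K)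
    (hW : ∀ (E : Type) [Field E] [Algebra F E] [FiniteDimensional F E],
      finrank F E = 1 ∨ 2731 ∣ finrank F E ∨ 8191 ∣ finrank F E)
    (hA : Aniso F ε c) : False := by
  obtain ⟨P⟩ := exists_place_param hε
  have hdom := isDomain_ring P c hε
  obtain ⟨b, hb⟩ := exists_basis P hε c
  let D := filt P c b hb
  have hΔ : 2 ^ r = 2097152 := by rw [hr]; norm_num
  have h21 : 23065856 < finrank F (D.Fil 21) := by
    change 23065856 < finrank F (FilR (cF F c) ε 21)
    rw [FilR_eq_RedR P c, finrank_RedR c b hb]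
    have h1 := card_sum_two (r := r) 21 hr.le
    generalize ∑ I : Finset (Fin r), (21 + 1 - I.card) = S at h1 ⊢
    rw [hΔ, hr] at h1
    omega
  refine D.count_false hΔ h21 (FractionRing (MvPolynomial (Fin (r + 1)) F ⧸ J (cF F c) ε))
    (IsFractionRing.injective _ _) ?_ ?_
  · intro M hM hfd
    let _ := Ideal.Quotient.field M
    rcases hW (_ ⧸ M) with h | h
    · obtain ⟨ψ⟩ := exists_algHom M hM h
      exact (no_hom c hA ψ).elim
    · exact h
  · intro M hM hfd
    let _ := Ideal.Quotient.field M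
    rcases hW (_ ⧸ M) with h | h
    · obtain ⟨ψ⟩ := exists_algHom M hM h
      exact (no_hom_inf c hA (by rw [hΔ]; norm_num) D rfl
        (fun j => mk_mem_FilR _ _ ((totalDegree_monomial_le _ _).trans (by simp)))
        _ (IsFractionRing.injective _ _) ψ).elim
    · exact h

end Pool.Agent.Lib.MP_25ed17_al.Neg
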