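import Mathlib

/-!
Maximal algebraic extensions all of whose elements have degree prime to two given primes.
-/

namespace Pool.Agent.Lib.MP_25ed17_al.Neg

open Module IntermediateField Polynomial

/-- `n` is divisible by neither `p` nor `q`. -/
def Cop (p q n : ℕ) : Prop := ¬ p ∣ n ∧ ¬ q ∣ n

theorem Cop.mul {p q a b : ℕ} (hp : p.Prime) (hq : q.Prime) (ha : Cop p q a) (hb : Cop p q b) :
    Cop p q (a * b) :=
  ⟨fun h => (hp.dvd_mul.1 h).elim ha.1 hb.1, fun h => (hq.dvd_mul.1 h).elim ha.2 hb.2⟩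

theorem Cop.of_dvd {p q a b : ℕ} (hb : Cop p q b) (h : a ∣ b) : Cop p q a :=
  ⟨fun h' => hb.1 (h'.trans h), fun h' => hb.2 (h'.trans h)⟩

theorem Cop.one {p q : ℕ} (hp : p.Prime) (hq : q.Prime) : Cop p q 1 :=
  ⟨hp.one_lt.ne' ∘ Nat.dvd_one.1, hq.one_lt.ne' ∘ Nat.dvd_one.1⟩

variable {k Ω : Type*} [Field k] [Field Ω] [Algebra k Ω]

/-- All elements have degree divisible by neither `p` nor `q`. -/
def CopField (p q : ℕ) (M : IntermediateField k Ω) : Prop :=
  ∀ x ∈ M, Cop p q (minpoly k x).natDegree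

theorem exists_maximal {p q : ℕ} (hp : p.Prime) (hq : q.Prime) :
    ∃ M : IntermediateField k Ω, CopField p q M ∧
      ∀ M' : IntermediateField k Ω, CopField p q M' → M ≤ M' → M' ≤ M := by
  have hbot : CopField p q (⊥ : IntermediateField k Ω) := by
    rintro _ ⟨c, rfl⟩
    have : minpoly k (algebraMap k Ω c) = X - C c := minpoly.eq_X_sub_C Ω c
    change Cop p q (minpoly k (algebraMap k Ω c)).natDegree
    rw [this, natDegree_X_sub_C]
    exact Cop.one hp hq
  have hih : ∀ c ⊆ {M : IntermediateField k Ω | CopField p q M}, IsChain (· ≤ ·) c → ∀ y ∈ c,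
      ∃ ub ∈ {M : IntermediateField k Ω | CopField p q M}, ∀ z ∈ c, z ≤ ub := by
    intro c hc hchain y hy
    refine ⟨sSup c, ?_, fun z hz => le_sSup hz⟩
    have hne : Nonempty c := ⟨⟨y, hy⟩⟩
    have hdir : Directed (· ≤ ·) (fun z : c => (z : IntermediateField k Ω)) :=
      hchain.directed
    intro x hx
    rw [sSup_eq_iSup'] at hx
    have h1 : x ∈ ((⨆ z : c, (z : IntermediateField k Ω) : IntermediateField k Ω) : Set Ω) := hx
    rw [IntermediateField.coe_iSup_of_directed hdir, Set.mem_iUnion] at h1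
    obtain ⟨z, hz⟩ := h1
    exact hc z.2 x hz
  obtain ⟨M, -, hM⟩ := zorn_le_nonempty₀ _ hih ⊥ hbot
  exact ⟨M, hM.1, fun M' h1 h2 => hM.2 h1 h2⟩

section

variable [CharZero k]

theorem CopField.finrank {p q : ℕ} {M : IntermediateField k Ω} (hM : CopField p q M)
    (E : IntermediateField k Ω) (hE : E ≤ M) [FiniteDimensional k E] :
    Cop p q (finrank k E) := by
  obtain ⟨α, hα⟩ := Field.exists_primitive_element k E
  have h1 : (minpoly k α).natDegree = Module.finrank k E :=
    (Field.primitive_element_iff_minpoly_natDegree_eq k α).1 hα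
  rw [← h1, ← minpoly.algebraMap_eq (algebraMap E Ω).injective α]
  exact hM _ (hE α.2)

variable [Algebra.IsAlgebraic k Ω]

theorem CopField.exists_finite {p q : ℕ} {M : IntermediateField k Ω} (hM : CopField p q M)
    (S : Set Ω) (hS : S.Finite) (hSM : S ⊆ M) :
    ∃ E : IntermediateField k Ω, S ⊆ E ∧ E ≤ M ∧ FiniteDimensional k E ∧
      Cop p q (Module.finrank k E) := by
  have hfin : Finite S := hS
  have h1 : FiniteDimensional k (adjoin k S) :=
    IntermediateField.finiteDimensional_adjoin fun x _ => Algebra.IsIntegral.isIntegral x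
  have h2 : adjoin k S ≤ M := adjoin_le_iff.2 hSM
  exact ⟨adjoin k S, subset_adjoin k S, h2, h1, hM.finrank _ h2⟩

theorem CopField.lift {p q : ℕ} (hp : p.Prime) (hq : q.Prime) {M : IntermediateField k Ω}
    (hM : CopField p q M) (y : Ω) (hy : Cop p q (minpoly M y).natDegree) :
    Cop p q (minpoly k y).natDegree := by
  classical
  set g := minpoly M y with hg
  set S : Set Ω := ((g.map (algebraMap M Ω)).coeffs : Set Ω) with hS
  have hSM : S ⊆ M := by
    intro x hx
    rw [hS, Finset.mem_coe, mem_coeffs_iff] at hx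
    obtain ⟨n, -, rfl⟩ := hx
    rw [coeff_map]
    exact (g.coeff n).2
  obtain ⟨k₁, hSk, hkM, hfd, hcop⟩ := hM.exists_finite S (Finset.finite_toSet _) hSM
  have hint : IsIntegral k y := Algebra.IsIntegral.isIntegral y
  have hyM : IsIntegral M y := hint.tower_top
  have hyk : IsIntegral k₁ y := hint.tower_top
  have hlift : g.map (algebraMap M Ω) ∈ lifts (algebraMap k₁ Ω) := by
    rw [lifts_iff_coeff_lifts]
    intro n
    by_cases hn : (g.map (algebraMap M Ω)).coeff n = 0
    · rw [hn]; exact ⟨0, map_zero _⟩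
    · have : (g.map (algebraMap M Ω)).coeff n ∈ S := by
        rw [hS, Finset.mem_coe]
        exact coeff_mem_coeffs hn
      exact ⟨⟨_, hSk this⟩, rfl⟩
  obtain ⟨g₁, hg₁⟩ := (mem_lifts _).1 hlift
  have hdeg : g₁.natDegree = g.natDegree := by
    rw [← natDegree_map (algebraMap k₁ Ω) (p := g₁), hg₁, natDegree_map]
  have hg0 : g ≠ 0 := minpoly.ne_zero hyM
  have hg₁0 : g₁ ≠ 0 := by
    rintro rfl
    rw [Polynomial.map_zero] at hg₁
    exact hg0 ((Polynomial.map_eq_zero _).1 hg₁.symm)
  have h1 : (minpoly k₁ y).natDegree ≤ g.natDegree := by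
    rw [← hdeg]
    apply natDegree_le_of_dvd _ hg₁0
    apply minpoly.dvd
    rw [aeval_def, ← eval_map, hg₁, eval_map, ← aeval_def, hg, minpoly.aeval]
  have h2 : g.natDegree ≤ (minpoly k₁ y).natDegree := by
    have h3 : g ∣ (minpoly k₁ y).map (inclusion hkM).toRingHom := by
      apply minpoly.dvd
      rw [aeval_def, eval₂_map]
      exact minpoly.aeval k₁ y
    have h4 := natDegree_le_of_dvd h3
      (by
        rw [Ne, Polynomial.map_eq_zero]
        exact minpoly.ne_zero hyk)
    rwa [natDegree_map] at h4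
  have h5 : (minpoly k₁ y).natDegree = g.natDegree := le_antisymm h1 h2
  have h6 : Module.finrank k k₁⟮y⟯ = Module.finrank k k₁ * g.natDegree := by
    rw [← h5, ← IntermediateField.adjoin.finrank hyk, Module.finrank_mul_finrank]
  have h7 : (minpoly k y).natDegree ∣ Module.finrank k k₁⟮y⟯ := by
    have : IsScalarTower k k₁⟮y⟯ Ω := IsScalarTower.of_algebraMap_eq fun x => rfl
    have h8 := minpoly.algebraMap_eq (A := k) (algebraMap k₁⟮y⟯ Ω).injective
      (AdjoinSimple.gen k₁ y)
    rw [AdjoinSimple.algebraMap_gen] at h8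
    rw [h8]
    apply minpoly.degree_dvd
    rw [← isIntegral_algebraMap_iff (algebraMap k₁⟮y⟯ Ω).injective,
      AdjoinSimple.algebraMap_gen]
    exact hint
  rw [h6] at h7
  exact (Cop.mul hp hq hcop hy).of_dvd h7

/-- Finite extensions of the maximal field are trivial or have degree divisible by `p` or `q`. -/
theorem finrank_of_maximal [IsAlgClosed Ω] {p q : ℕ} (hp : p.Prime) (hq : q.Prime)
    {M : IntermediateField k Ω} (hM : CopField p q M)
    (hmax : ∀ M' : IntermediateField k Ω, CopField p q M' → M ≤ M' → M' ≤ M)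
    (E : Type*) [Field E] [Algebra M E] [FiniteDimensional M E] :
    Module.finrank M E = 1 ∨ p ∣ Module.finrank M E ∨ q ∣ Module.finrank M E := by
  by_contra hcon
  push Not at hcon
  obtain ⟨h1, h2, h3⟩ := hcon
  let σ : E →ₐ[M] Ω := IsAlgClosed.lift
  let M' : IntermediateField k Ω := σ.fieldRange.restrictScalars k
  have hle : M ≤ M' := by
    intro x hx
    exact ⟨algebraMap M E ⟨x, hx⟩, σ.commutes _⟩
  have hcop : CopField p q M' := by
    rintro _ ⟨e, rfl⟩
    apply hM.lift hp hq
    change Cop p q (minpoly M (σ e)).natDegree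
    rw [minpoly.algHom_eq σ σ.toRingHom.injective e]
    exact Cop.of_dvd ⟨h2, h3⟩ (minpoly.degree_dvd (Algebra.IsIntegral.isIntegral e))
  have hge := hmax M' hcop hle
  apply h1
  have hsurj : Function.Surjective (algebraMap M E) := by
    intro e
    have h4 : σ e ∈ M := hge ⟨e, rfl⟩
    refine ⟨⟨σ e, h4⟩, ?_⟩
    apply σ.toRingHom.injective
    exact σ.commutes _
  have hbij : Function.Bijective (algebraMap M E) := ⟨(algebraMap M E).injective, hsurj⟩
  have := (LinearEquiv.ofBijective (Algebra.linearMap M E) hbij).finrank_eq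
  rw [← this, Module.finrank_self]

end

end Pool.Agent.Lib.MP_25ed17_al.Neg
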