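import Pool.Agent.Lib.MP_25ed17_al.Neg.Thm

/-!
Restriction of a system to 23 coordinates.
-/

namespace Pool.Agent.Lib.MP_25ed17_al.Neg

open Module

theorem exists_restrict {K : Type} [Field K] {r n : ℕ} (hn : r + 2 ≤ n)
    (q : QuadraticMap K (Fin n → K) (Fin r → K)) (hq : ∀ x, q x = 0 → x = 0) :
    ∃ c : Fin r → Fin (r + 2) → Fin (r + 2) → K,
      ∀ x : Fin (r + 2) → K, (∀ i, qf c x i = 0) → x = 0 := by
  classical
  obtain ⟨β, rfl⟩ := LinearMap.BilinMap.toQuadraticMap_surjective (R := K)
    (M := Fin n → K) (N := Fin r → K) q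
  let e : Fin (r + 2) → Fin n := Fin.castLE hn
  have he : Function.Injective e := Fin.castLE_injective hn
  refine ⟨fun i a b => β (Pi.single (e a) 1) (Pi.single (e b) 1) i, fun x hx => ?_⟩
  let X : Fin n → K := ∑ a, x a • Pi.single (e a) (1 : K)
  have hX : X = 0 := by
    apply hq
    rw [LinearMap.BilinMap.toQuadraticMap_apply]
    funext i
    simp only [X, map_sum, LinearMap.sum_apply, map_smul, LinearMap.smul_apply,
      Finset.sum_apply, Pi.smul_apply, smul_eq_mul, Pi.zero_apply]
    refine Eq.trans ?_ (hx i)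
    rw [qf, Finset.sum_comm]
    refine Finset.sum_congr rfl fun a _ => ?_
    rw [Finset.mul_sum]
    exact Finset.sum_congr rfl fun b _ => by ring
  funext a
  have h1 := congrFun hX (e a)
  simp only [X, Finset.sum_apply, Pi.smul_apply, smul_eq_mul, Pi.zero_apply] at h1
  rw [Finset.sum_eq_single a] at h1
  · simpa using h1
  · intro b _ hb
    rw [Pi.single_eq_of_ne (fun h => hb (he h).symm), mul_zero]
  · intro h; exact absurd (Finset.mem_univ _) h

theorem isSumSq_neg_one {R : Type*} [CommRing R] (f : ℂ →+* R) : IsSumSq (-1 : R) := by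
  have h : (-1 : R) = f Complex.I * f Complex.I := by
    rw [← map_mul, Complex.I_mul_I, map_neg, map_one]
  rw [h]
  exact IsSumSq.mul_self _

end Pool.Agent.Lib.MP_25ed17_al.Neg
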