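import Mathlib

set_option autoImplicit false
set_option linter.style.haveILetI false
set_option linter.deprecated false

namespace Pool.Agent.Lib.MP_25ed17_al.Neg

open IsLocalRing

/-- A finite free algebra over an adically complete ring is adically complete. -/
theorem isAdicComplete_of_free {R C : Type*} [CommRing R] [Nontrivial R] [CommRing C] [Algebra R C]
    [Module.Finite R C] [Module.Free R C] (I : Ideal R) [IsAdicComplete I R] :
    IsAdicComplete I C := by
  classical
  let b := Module.Free.chooseBasis R C
  have hcoord : ∀ (i : Module.Free.ChooseBasisIndex R C) (n : ℕ) (x : C),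
      x ∈ (I ^ n • ⊤ : Submodule R C) →
      b.repr x i ∈ (I ^ n • ⊤ : Submodule R R) := by
    intro i n x hx
    have := Submodule.mem_map_of_mem (f := b.coord i) hx
    rw [Submodule.map_smul''] at this
    exact Submodule.smul_mono le_rfl le_top this
  have hback : ∀ (n : ℕ) (x : C), (∀ i, b.repr x i ∈ (I ^ n • ⊤ : Submodule R R)) →
      x ∈ (I ^ n • ⊤ : Submodule R C) := by
    intro n x hx
    rw [← b.sum_repr x]
    refine Submodule.sum_mem _ fun i _ => ?_
    have h1 : b.repr x i ∈ I ^ n := by simpa using hx i
    exact Submodule.smul_mem_smul h1 trivial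
  refine { haus' := ?_, prec' := ?_ }
  · intro x hx
    have : ∀ i, b.repr x i = 0 := by
      intro i
      refine IsHausdorff.haus' (I := I) (b.repr x i) fun n => ?_
      have h := hx n
      rw [SModEq.zero] at h ⊢
      exact hcoord i n x h
    rw [← b.sum_repr x]
    simp [this]
  · intro f hf
    have h1 : ∀ i, ∃ L : R, ∀ n, b.repr (f n) i ≡ L [SMOD (I ^ n • ⊤ : Submodule R R)] := by
      intro i
      refine IsPrecomplete.prec' (I := I) (fun n => b.repr (f n) i) ?_
      intro m n hmn
      have h := hf hmn
      rw [SModEq.sub_mem] at h ⊢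
      have := hcoord i m _ h
      simpa using this
    choose L hL using h1
    refine ⟨∑ i, L i • b i, fun n => ?_⟩
    rw [SModEq.sub_mem]
    refine hback n _ fun i => ?_
    have h2 := hL i n
    rw [SModEq.sub_mem] at h2
    have h3 : b.repr (∑ i, L i • b i) i = L i := by
      rw [b.repr_sum_self]
    rw [map_sub, Finsupp.sub_apply, h3]
    exact h2

/-- A Dedekind domain which is henselian along a nonzero principal ideal is local. -/
theorem isLocalRing_of_henselian {C : Type*} [CommRing C] [IsDedekindDomain C] (x : C)
    (hx0 : x ≠ 0) [HenselianRing C (Ideal.span {x})] : IsLocalRing C := by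
  have hmem : ∀ M : Ideal C, M.IsMaximal → x ∈ M := by
    intro M hM
    have h1 := HenselianRing.jac (R := C) (I := Ideal.span {x})
    have h2 : x ∈ Ideal.jacobson (⊥ : Ideal C) := h1 (Ideal.mem_span_singleton_self x)
    exact (Ideal.mem_sInf.mp h2) ⟨bot_le, hM⟩
  obtain ⟨M, hM⟩ := Ideal.exists_maximal C
  refine IsLocalRing.of_unique_max_ideal ⟨M, hM, fun N hN => ?_⟩
  by_contra hne
  -- factor `(x) = M ^ a * J`
  have hspan0 : Ideal.span {x} ≠ (⊥ : Ideal C) := by simpa using hx0
  have hM0 : M ≠ ⊥ := by
    rintro rfl
    exact hx0 (by simpa using hmem _ hM)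
  have hMprime : Prime M := Ideal.prime_of_isPrime hM0 hM.isPrime
  obtain ⟨a, J, hJ, hxJ⟩ :=
    WfDvdMonoid.max_power_factor (a₀ := Ideal.span {x}) (x := M) hspan0 hMprime.irreducible
  have ha : a ≠ 0 := by
    rintro rfl
    rw [pow_zero, one_mul] at hxJ
    apply hJ
    rw [← hxJ]
    exact Ideal.dvd_span_singleton.mpr (hmem M hM)
  have hcop : IsCoprime (M ^ a) J := by
    apply IsCoprime.pow_left
    rw [Ideal.isCoprime_iff_sup_eq]
    by_contra hsup
    have hle : M ⊔ J = M := (hM.eq_of_le hsup le_sup_left).symm
    apply hJ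
    rw [Ideal.dvd_iff_le]
    exact le_sup_right.trans hle.le
  obtain ⟨i, hi, e, he, hie⟩ := Ideal.isCoprime_iff_exists.mp hcop
  have hiM : i ∈ M := Ideal.pow_le_self ha hi
  have hmul : i * e ∈ Ideal.span {x} := by
    rw [hxJ]
    exact Ideal.mul_mem_mul hi he
  have hi' : i = 1 - e := by rw [← hie]; ring
  obtain ⟨c, hc, hce⟩ := HenselianRing.is_henselian (R := C) (I := Ideal.span {x})
    (Polynomial.X ^ 2 - Polynomial.X) (by monicity!) e
    (by
      have : Polynomial.eval e (Polynomial.X ^ 2 - Polynomial.X : Polynomial C) = -(i * e) := by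
        simp [hi']; ring
      rw [this]
      exact Submodule.neg_mem _ hmul)
    (by
      have h1 : (Polynomial.eval e (Polynomial.derivative
          (Polynomial.X ^ 2 - Polynomial.X : Polynomial C))) = 2 * e - 1 := by
        simp
        left; norm_num
      rw [h1]
      refine IsUnit.of_mul_eq_one (Ideal.Quotient.mk (Ideal.span {x}) (2 * e - 1)) ?_
      rw [← map_mul, ← map_one (Ideal.Quotient.mk (Ideal.span {x})), Ideal.Quotient.eq]
      have : (2 * e - 1) * (2 * e - 1) - 1 = (-4) * (i * e) := by rw [hi']; ring
      rw [this]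
      exact Ideal.mul_mem_left _ _ hmul)
  have hc' : c * (c - 1) = 0 := by
    have : Polynomial.eval c (Polynomial.X ^ 2 - Polynomial.X : Polynomial C) = 0 := hc
    simp at this
    linear_combination this
  have hspanle : ∀ P : Ideal C, P.IsMaximal → ∀ y ∈ Ideal.span {x}, y ∈ P := by
    intro P hP y hy
    exact (Ideal.span_singleton_le_iff_mem P).mpr (hmem P hP) hy
  rcases mul_eq_zero.mp hc' with h0 | h1
  · -- `c = 0`: then `e ∈ (x) ⊆ M`, and `1 - e ∈ M`
    have heM : e ∈ M := by
      have := hspanle M hM _ hce
      rw [h0, zero_sub] at this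
      simpa using this
    apply hM.ne_top
    rw [Ideal.eq_top_iff_one, ← hie]
    exact M.add_mem hiM heM
  · -- `c = 1`: then `1 - e ∈ (x) ⊆ N`, and `e ∈ J ⊆ N`
    have hJN : J ≤ N := by
      have h2 : M ^ a * J ≤ N := by
        rw [← hxJ]
        exact (Ideal.span_singleton_le_iff_mem N).mpr (hmem N hN)
      rcases (hN.isPrime.mul_le).mp h2 with h3 | h3
      · exact absurd (hM.eq_of_le hN.ne_top (hN.isPrime.le_of_pow_le h3)).symm hne
      · exact h3
    have h4 : 1 - e ∈ N := by
      have := hspanle N hN _ hce
      rwa [sub_eq_zero.mp h1] at this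
    apply hN.ne_top
    rw [Ideal.eq_top_iff_one]
    have : (1 : C) = (1 - e) + e := by ring
    rw [this]
    exact N.add_mem h4 (hJN he)

/-- The integral closure of `K⟦X⟧` in a finite extension of `K⸨X⸩`: a finite local Dedekind
domain with `e * f = n`. -/
theorem exists_core (K : Type) [Field K] [CharZero K] (E : Type) [Field E]
    [Algebra (LaurentSeries K) E] [FiniteDimensional (LaurentSeries K) E]
    [Algebra (PowerSeries K) E] [IsScalarTower (PowerSeries K) (LaurentSeries K) E] :
    ∃ (C : Type) (_ : CommRing C) (_ : IsDedekindDomain C) (_ : IsLocalRing C)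
      (_ : Algebra (PowerSeries K) C) (_ : Algebra C E) (_ : IsFractionRing C E)
      (_ : IsScalarTower (PowerSeries K) C E) (_ : Module.Finite (PowerSeries K) C),
      (maximalIdeal C).LiesOver (Ideal.span {(PowerSeries.X : PowerSeries K)}) ∧
      algebraMap (PowerSeries K) C PowerSeries.X ≠ 0 ∧
      (Ideal.span {(PowerSeries.X : PowerSeries K)}).ramificationIdx' (maximalIdeal C) *
        (Ideal.span {(PowerSeries.X : PowerSeries K)}).inertiaDeg' (maximalIdeal C) =
          Module.finrank (LaurentSeries K) E := by
  haveI : CharZero (LaurentSeries K) := by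
    haveI : Algebra K (LaurentSeries K) := inferInstance
    exact charZero_of_injective_algebraMap (algebraMap K (LaurentSeries K)).injective
  haveI hD : IsDedekindDomain (integralClosure (PowerSeries K) E) :=
    integralClosure.isDedekindDomain (PowerSeries K) (LaurentSeries K) E
  haveI hfin : Module.Finite (PowerSeries K) (integralClosure (PowerSeries K) E) :=
    IsIntegralClosure.finite (PowerSeries K) (LaurentSeries K) E _
  haveI hfr : IsFractionRing (integralClosure (PowerSeries K) E) E :=
    integralClosure.isFractionRing_of_finite_extension (LaurentSeries K) E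
  have hinj : Function.Injective (algebraMap (PowerSeries K) E) := by
    rw [IsScalarTower.algebraMap_eq (PowerSeries K) (LaurentSeries K) E]
    exact (algebraMap (LaurentSeries K) E).injective.comp
      (IsFractionRing.injective (PowerSeries K) (LaurentSeries K))
  have hinjC : Function.Injective (algebraMap (PowerSeries K)
      (integralClosure (PowerSeries K) E)) := by
    rw [IsScalarTower.algebraMap_eq (PowerSeries K) (integralClosure (PowerSeries K) E) E,
      RingHom.coe_comp] at hinj
    exact Function.Injective.of_comp hinj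
  haveI hTF : Module.IsTorsionFree (PowerSeries K) (integralClosure (PowerSeries K) E) :=
    Module.isTorsionFree_iff_algebraMap_injective.mpr hinjC
  haveI hfree : Module.Free (PowerSeries K) (integralClosure (PowerSeries K) E) := by
    infer_instance
  set X' := algebraMap (PowerSeries K) (integralClosure (PowerSeries K) E) PowerSeries.X with hX'
  have hX0 : X' ≠ 0 := by
    rw [hX', Ne, map_eq_zero_iff _ hinjC]
    exact PowerSeries.X_ne_zero
  haveI hAC : IsAdicComplete (Ideal.span {X'}) (integralClosure (PowerSeries K) E) := by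
    have h1 : IsAdicComplete (Ideal.span {(PowerSeries.X : PowerSeries K)})
        (integralClosure (PowerSeries K) E) := isAdicComplete_of_free _
    have h2 := (IsAdicComplete.map_algebraMap_iff (S := integralClosure (PowerSeries K) E)
      (Ideal.span {(PowerSeries.X : PowerSeries K)})
      (integralClosure (PowerSeries K) E)).mpr h1
    rwa [Ideal.map_span, Set.image_singleton] at h2
  haveI hloc : IsLocalRing (integralClosure (PowerSeries K) E) :=
    isLocalRing_of_henselian X' hX0
  haveI hover : (maximalIdeal (integralClosure (PowerSeries K) E)).LiesOver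
      (Ideal.span {(PowerSeries.X : PowerSeries K)}) := by
    rw [← PowerSeries.maximalIdeal_eq_span_X]
    haveI := Ideal.isMaximal_comap_of_isIntegral_of_isMaximal (R := PowerSeries K)
      (maximalIdeal (integralClosure (PowerSeries K) E))
    exact ⟨(IsLocalRing.eq_maximalIdeal this).symm⟩
  haveI hmax : (Ideal.span {(PowerSeries.X : PowerSeries K)}).IsMaximal := by
    rw [← PowerSeries.maximalIdeal_eq_span_X]
    infer_instance
  have hne : Ideal.span {(PowerSeries.X : PowerSeries K)} ≠ ⊥ := by
    simp
  refine ⟨integralClosure (PowerSeries K) E, inferInstance, hD, hloc, inferInstance,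
    inferInstance, hfr, inferInstance, hfin, hover, hX0, ?_⟩
  exact Ideal.ramificationIdx_mul_inertiaDeg_of_isLocalRing _ (LaurentSeries K) E hne

/-- The constants map isomorphically onto `K⟦X⟧ / (X)`. -/
theorem bijective_const (K : Type) [Field K] :
    Function.Bijective ((Ideal.Quotient.mk (Ideal.span {(PowerSeries.X : PowerSeries K)})).comp
      (PowerSeries.C (R := K))) := by
  constructor
  · rw [injective_iff_map_eq_zero]
    intro a ha
    rw [RingHom.comp_apply, Ideal.Quotient.eq_zero_iff_mem, Ideal.mem_span_singleton,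
      PowerSeries.X_dvd_iff] at ha
    simpa using ha
  · intro y
    obtain ⟨f, rfl⟩ := Ideal.Quotient.mk_surjective y
    refine ⟨PowerSeries.constantCoeff f, ?_⟩
    rw [RingHom.comp_apply, Ideal.Quotient.eq, Ideal.mem_span_singleton, PowerSeries.X_dvd_iff]
    simp

/-- The inertia degree is the degree of the residue field over the constants. -/
theorem inertiaDeg_eq (K : Type) [Field K] (C : Type) [CommRing C] [Algebra (PowerSeries K) C]
    (M : Ideal C) [M.LiesOver (Ideal.span {(PowerSeries.X : PowerSeries K)})]
    [Algebra K (C ⧸ M)]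
    (hK : ∀ a : K, algebraMap K (C ⧸ M) a =
      Ideal.Quotient.mk M (algebraMap (PowerSeries K) C (PowerSeries.C a))) :
    (Ideal.span {(PowerSeries.X : PowerSeries K)}).inertiaDeg' M = Module.finrank K (C ⧸ M) := by
  rw [Ideal.inertiaDeg'_algebraMap]
  symm
  refine Algebra.finrank_eq_of_equiv_equiv
    (RingEquiv.ofBijective _ (bijective_const K)) (RingEquiv.refl _) ?_
  ext a
  have h1 : (RingEquiv.ofBijective _ (bijective_const K)) a =
      Ideal.Quotient.mk (Ideal.span {(PowerSeries.X : PowerSeries K)}) (PowerSeries.C a) := rfl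
  change algebraMap (PowerSeries K ⧸ Ideal.span {(PowerSeries.X : PowerSeries K)}) (C ⧸ M)
    ((RingEquiv.ofBijective _ (bijective_const K)) a) = algebraMap K (C ⧸ M) a
  rw [hK, h1]
  rfl

theorem exists_place (K : Type) [Field K] [CharZero K] (E : Type) [Field E]
    [Algebra (LaurentSeries K) E] [FiniteDimensional (LaurentSeries K) E]
    (hE : ∀ (k' : Type) [Field k'] [Algebra K k'] [FiniteDimensional K k'],
      Module.finrank K k' ∣ Module.finrank (LaurentSeries K) E → Module.finrank K k' = 1) :
    ∃ (O : ValuationSubring E) (π : O →+* K),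
      (∀ a : K, ∃ h : algebraMap (LaurentSeries K) E (HahnSeries.C a) ∈ O, π ⟨_, h⟩ = a) ∧
      ∃ h : algebraMap (LaurentSeries K) E (HahnSeries.single 1 1) ∈ O, π ⟨_, h⟩ = 0 := by
  classical
  letI : Algebra (PowerSeries K) E := ((algebraMap (LaurentSeries K) E).comp
    (algebraMap (PowerSeries K) (LaurentSeries K))).toAlgebra
  haveI : IsScalarTower (PowerSeries K) (LaurentSeries K) E :=
    IsScalarTower.of_algebraMap_eq' rfl
  obtain ⟨C, _, hD, hloc, _, _, hfr, hst, hfin, hover, hX0, hef⟩ := exists_core K E
  letI : Algebra K (C ⧸ maximalIdeal C) := ((Ideal.Quotient.mk (maximalIdeal C)).comp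
    ((algebraMap (PowerSeries K) C).comp (PowerSeries.C (R := K)))).toAlgebra
  rw [inertiaDeg_eq K C (maximalIdeal C) (fun a => rfl)] at hef
  have hpos : 0 < Module.finrank (LaurentSeries K) E := Module.finrank_pos
  have hfpos : 0 < Module.finrank K (C ⧸ maximalIdeal C) := by
    rcases Nat.eq_zero_or_pos (Module.finrank K (C ⧸ maximalIdeal C)) with h | h
    · rw [h, mul_zero] at hef
      omega
    · exact h
  haveI hfinK : Module.Finite K (C ⧸ maximalIdeal C) := Module.finite_of_finrank_pos hfpos
  have hone : Module.finrank K (C ⧸ maximalIdeal C) = 1 := by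
    refine @hE (C ⧸ maximalIdeal C) (Ideal.Quotient.field _) _ hfinK ?_
    exact ⟨_, by rw [← hef, mul_comm]⟩
  have hbij : Function.Bijective (algebraMap K (C ⧸ maximalIdeal C)) := by
    haveI : Nontrivial (C ⧸ maximalIdeal C) := Ideal.Quotient.nontrivial_iff.mpr
      (Ideal.IsPrime.ne_top inferInstance)
    refine ⟨(algebraMap K (C ⧸ maximalIdeal C)).injective, ?_⟩
    exact Algebra.surjective_algebraMap_iff.mpr
      (Subalgebra.bot_eq_top_of_finrank_eq_one hone).symm
  let e : K ≃+* (C ⧸ maximalIdeal C) := RingEquiv.ofBijective _ hbij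
  haveI hval : ValuationRing C :=
    ((tfae_of_isNoetherianRing_of_isLocalRing_of_isDomain C).out 2 1).mp hD
  let O : ValuationSubring E :=
    { (algebraMap C E).range with
      mem_or_inv_mem' := by
        intro x
        rcases ValuationRing.isInteger_or_isInteger C x with h | h
        · left; exact h
        · right; exact h }
  have hO : ∀ c : C, algebraMap C E c ∈ O := fun c => ⟨c, rfl⟩
  let g : C →+* O := (algebraMap C E).codRestrict O hO
  have hg : Function.Bijective g := by
    constructor
    · intro a b hab
      have := congrArg Subtype.val hab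
      exact IsFractionRing.injective C E this
    · rintro ⟨x, c, rfl⟩
      exact ⟨c, rfl⟩
  let eg : C ≃+* O := RingEquiv.ofBijective g hg
  let π : O →+* K := (e.symm.toRingHom.comp (Ideal.Quotient.mk (maximalIdeal C))).comp
    eg.symm.toRingHom
  have hπ : ∀ (c : C) (h : algebraMap C E c ∈ O), π ⟨_, h⟩ =
      e.symm (Ideal.Quotient.mk (maximalIdeal C) c) := by
    intro c h
    have h1 : (⟨_, h⟩ : O) = eg c := rfl
    change e.symm (Ideal.Quotient.mk (maximalIdeal C) (eg.symm ⟨_, h⟩)) = _
    rw [h1, RingEquiv.symm_apply_apply]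
  have hmap : ∀ f : PowerSeries K, algebraMap (LaurentSeries K) E
      (algebraMap (PowerSeries K) (LaurentSeries K) f) =
        algebraMap C E (algebraMap (PowerSeries K) C f) := by
    intro f
    rw [← IsScalarTower.algebraMap_apply (PowerSeries K) (LaurentSeries K) E,
      ← IsScalarTower.algebraMap_apply (PowerSeries K) C E]
  refine ⟨O, π, ?_, ?_⟩
  · intro a
    have h1 : algebraMap (LaurentSeries K) E (HahnSeries.C a) =
        algebraMap C E (algebraMap (PowerSeries K) C (PowerSeries.C a)) := by
      rw [← hmap]
      congr 1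
      simp
    have h2 : algebraMap (LaurentSeries K) E (HahnSeries.C a) ∈ O := by
      rw [h1]; exact hO _
    refine ⟨h2, ?_⟩
    have h3 : (⟨_, h2⟩ : O) = ⟨_, hO (algebraMap (PowerSeries K) C (PowerSeries.C a))⟩ :=
      Subtype.ext h1
    rw [h3, hπ]
    rw [RingEquiv.symm_apply_eq]
    rfl
  · have h1 : algebraMap (LaurentSeries K) E (HahnSeries.single 1 1) =
        algebraMap C E (algebraMap (PowerSeries K) C PowerSeries.X) := by
      rw [← hmap]
      congr 1
      simp
    have h2 : algebraMap (LaurentSeries K) E (HahnSeries.single 1 1) ∈ O := by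
      rw [h1]; exact hO _
    refine ⟨h2, ?_⟩
    have h3 : (⟨_, h2⟩ : O) = ⟨_, hO (algebraMap (PowerSeries K) C PowerSeries.X)⟩ :=
      Subtype.ext h1
    rw [h3, hπ]
    have h4 : algebraMap (PowerSeries K) C PowerSeries.X ∈ maximalIdeal C := by
      have h5 : (PowerSeries.X : PowerSeries K) ∈
          (maximalIdeal C).under (PowerSeries K) := by
        rw [← Ideal.over_def (maximalIdeal C) (Ideal.span {(PowerSeries.X : PowerSeries K)})]
        exact Ideal.mem_span_singleton_self _
      exact h5
    rw [Ideal.Quotient.eq_zero_iff_mem.mpr h4, map_zero]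

theorem exists_val (k : Type) [Field k] [CharZero k] [IsAlgClosed k] (E : Type) [Field E]
    [Algebra (LaurentSeries k) E] [FiniteDimensional (LaurentSeries k) E] :
    ∃ v : E → ℤ, (∀ x y, x ≠ 0 → y ≠ 0 → v (x * y) = v x + v y) ∧
      (∀ x y, x ≠ 0 → y ≠ 0 → x + y ≠ 0 → min (v x) (v y) ≤ v (x + y)) ∧
      v (algebraMap (LaurentSeries k) E (HahnSeries.single 1 1)) =
        Module.finrank (LaurentSeries k) E := by
  classical
  letI : Algebra (PowerSeries k) E := ((algebraMap (LaurentSeries k) E).comp
    (algebraMap (PowerSeries k) (LaurentSeries k))).toAlgebra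
  haveI : IsScalarTower (PowerSeries k) (LaurentSeries k) E :=
    IsScalarTower.of_algebraMap_eq' rfl
  obtain ⟨C, _, hD, hloc, _, _, hfr, hst, hfin, hover, hX0, hef⟩ := exists_core k E
  letI : Algebra k (C ⧸ maximalIdeal C) := ((Ideal.Quotient.mk (maximalIdeal C)).comp
    ((algebraMap (PowerSeries k) C).comp (PowerSeries.C (R := k)))).toAlgebra
  rw [inertiaDeg_eq k C (maximalIdeal C) (fun a => rfl)] at hef
  have hpos : 0 < Module.finrank (LaurentSeries k) E := Module.finrank_pos
  have hfpos : 0 < Module.finrank k (C ⧸ maximalIdeal C) := by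
    rcases Nat.eq_zero_or_pos (Module.finrank k (C ⧸ maximalIdeal C)) with h | h
    · rw [h, mul_zero] at hef
      omega
    · exact h
  haveI hfinK : Module.Finite k (C ⧸ maximalIdeal C) := Module.finite_of_finrank_pos hfpos
  have hone : Module.finrank k (C ⧸ maximalIdeal C) = 1 := by
    have hb := IsAlgClosed.algebraMap_bijective_of_isIntegral (k := k)
      (K := C ⧸ maximalIdeal C)
    have e := LinearEquiv.ofBijective (Algebra.linearMap k (C ⧸ maximalIdeal C)) hb
    rw [← e.finrank_eq, Module.finrank_self]
  rw [hone, mul_one] at hef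
  have hM0 : maximalIdeal C ≠ ⊥ := by
    intro h
    have h4 : algebraMap (PowerSeries k) C PowerSeries.X ∈ maximalIdeal C := by
      have h5 : (PowerSeries.X : PowerSeries k) ∈
          (maximalIdeal C).under (PowerSeries k) := by
        rw [← Ideal.over_def (maximalIdeal C) (Ideal.span {(PowerSeries.X : PowerSeries k)})]
        exact Ideal.mem_span_singleton_self _
      exact h5
    rw [h] at h4
    exact hX0 ((Submodule.mem_bot C).mp h4)
  let P : IsDedekindDomain.HeightOneSpectrum C := ⟨maximalIdeal C, inferInstance, hM0⟩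
  let w : Valuation E (WithZero (Multiplicative ℤ)) := P.valuation E
  have hw : ∀ x : E, x ≠ 0 → w x ≠ 0 := fun x hx => (Valuation.ne_zero_iff _).mpr hx
  refine ⟨fun x => -WithZero.log (w x), ?_, ?_, ?_⟩
  · intro x y hx hy
    simp only
    rw [map_mul, WithZero.log_mul (hw x hx) (hw y hy)]
    ring
  · intro x y hx hy hxy
    simp only
    rcases le_max_iff.mp (w.map_add x y) with h | h
    · have := (WithZero.log_le_log (hw _ hxy) (hw x hx)).mpr h
      exact (min_le_left _ _).trans (by linarith)
    · have := (WithZero.log_le_log (hw _ hxy) (hw y hy)).mpr h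
      exact (min_le_right _ _).trans (by linarith)
  · have h1 : algebraMap (LaurentSeries k) E (HahnSeries.single 1 1) =
        algebraMap C E (algebraMap (PowerSeries k) C PowerSeries.X) := by
      rw [← IsScalarTower.algebraMap_apply (PowerSeries k) C E,
        IsScalarTower.algebraMap_apply (PowerSeries k) (LaurentSeries k) E]
      congr 1
      simp
    simp only
    rw [h1]
    set X' := algebraMap (PowerSeries k) C PowerSeries.X with hX'
    have h2 : w (algebraMap C E X') = P.intValuation X' :=
      IsDedekindDomain.HeightOneSpectrum.valuation_of_algebraMap P X'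
    obtain ⟨m, hm⟩ : ∃ m : ℕ, P.intValuation X' = WithZero.exp (-(m : ℤ)) := by
      rw [IsDedekindDomain.HeightOneSpectrum.intValuation_def, if_neg hX0]
      exact ⟨_, rfl⟩
    have h3 : Ideal.map (algebraMap (PowerSeries k) C)
        (Ideal.span {(PowerSeries.X : PowerSeries k)}) = Ideal.span {X'} := by
      rw [Ideal.map_span, Set.image_singleton]
    have h4 : (Ideal.span {(PowerSeries.X : PowerSeries k)}).ramificationIdx'
        (maximalIdeal C) = m := by
      apply Ideal.ramificationIdx'_spec
      · rw [h3, ← Ideal.dvd_iff_le]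
        exact (P.intValuation_le_pow_iff_dvd X' m).mp hm.le
      · rw [h3, ← Ideal.dvd_iff_le]
        intro h
        have := (P.intValuation_le_pow_iff_dvd X' (m + 1)).mpr h
        rw [hm, WithZero.exp_le_exp] at this
        push_cast at this
        linarith
    rw [h2, hm, WithZero.log_exp, neg_neg, ← hef, h4]

end Pool.Agent.Lib.MP_25ed17_al.Neg
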