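import Pool.Agent.Lib.MP_25ed17_al.Neg.Field
import Pool.Agent.Lib.MP_25ed17_al.Neg.Loc

/-!
Fourteen quadratic forms in fifteen variables without common zero.
-/

namespace Pool.Agent.Lib.MP_25ed17_al.Neg

open Module IntermediateField

/-- The coefficients of the monomial `c * x p * x q`. -/
def mono {K : Type*} [Zero K] {n : ℕ} (p q : Fin n) (c : K) (a b : Fin n) : K :=
  if a = p then (if b = q then c else 0) else 0

theorem sum_mono {K : Type*} [CommRing K] {n : ℕ} (p q : Fin n) (c : K) (x : Fin n → K) :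
    ∑ a, ∑ b, mono p q c a b * x a * x b = c * x p * x q := by
  rw [Finset.sum_eq_single p]
  · rw [Finset.sum_eq_single q]
    · simp [mono]
    · intro b _ hb; simp [mono, hb]
    · intro h; exact absurd (Finset.mem_univ _) h
  · intro a _ ha
    exact Finset.sum_eq_zero fun b _ => by simp [mono, ha]
  · intro h; exact absurd (Finset.mem_univ _) h

section val

variable {E : Type*} [Field E] {v : E → ℤ}

theorem v_one (hmul : ∀ x y, x ≠ 0 → y ≠ 0 → v (x * y) = v x + v y) : v 1 = 0 := by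
  have h := hmul 1 1 one_ne_zero one_ne_zero
  rw [mul_one] at h
  linarith

theorem v_neg (hmul : ∀ x y, x ≠ 0 → y ≠ 0 → v (x * y) = v x + v y) {x : E} (hx : x ≠ 0) :
    v (-x) = v x := by
  have h1 := hmul (-1) (-1) (neg_ne_zero.2 one_ne_zero) (neg_ne_zero.2 one_ne_zero)
  rw [neg_one_mul, neg_neg, v_one hmul] at h1
  have h2 := hmul (-1) x (neg_ne_zero.2 one_ne_zero) hx
  rw [neg_one_mul] at h2
  linarith

theorem v_pow (hmul : ∀ x y, x ≠ 0 → y ≠ 0 → v (x * y) = v x + v y) {x : E} (hx : x ≠ 0)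
    (m : ℕ) : v (x ^ m) = m * v x := by
  induction m with
  | zero => rw [pow_zero, v_one hmul]; simp
  | succ m ih =>
    rw [pow_succ, hmul _ _ (pow_ne_zero _ hx) hx, ih]
    push_cast; ring

theorem v_three (hmul : ∀ x y, x ≠ 0 → y ≠ 0 → v (x * y) = v x + v y)
    (hadd : ∀ x y, x ≠ 0 → y ≠ 0 → x + y ≠ 0 → min (v x) (v y) ≤ v (x + y))
    {x y z : E} (hx : x ≠ 0) (hy : y ≠ 0) (hz : z ≠ 0) (h : x + y + z = 0) :
    min (v x) (v y) ≤ v z := by
  have h1 : x + y = -z := by linear_combination h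
  have h2 := hadd x y hx hy (by rw [h1]; exact neg_ne_zero.2 hz)
  rwa [h1, v_neg hmul hz] at h2

end val

theorem no_root (k : Type) [Field k] [CharZero k] [IsAlgClosed k] (E : Type) [Field E]
    [Algebra (LaurentSeries k) E] [FiniteDimensional (LaurentSeries k) E]
    (hcop : Cop 2731 8191 (finrank (LaurentSeries k) E)) (z : E)
    (hz : z ^ (2 ^ 14) + algebraMap (LaurentSeries k) E (HahnSeries.single 1 1) *
      z ^ (2 ^ 13 + 1) + algebraMap (LaurentSeries k) E (HahnSeries.single 1 1) ^ 3 = 0) :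
    False := by
  obtain ⟨v, hmul, hadd, hX⟩ := exists_val k E
  set X := algebraMap (LaurentSeries k) E (HahnSeries.single 1 1) with hXdef
  have hX0 : X ≠ 0 := by
    rw [hXdef]
    intro h
    rw [map_eq_zero] at h
    exact one_ne_zero (HahnSeries.single_eq_zero_iff.1 h)
  have hz0 : z ≠ 0 := by
    rintro rfl
    rw [zero_pow (by positivity), zero_pow (by positivity), mul_zero, zero_add, zero_add] at hz
    exact hX0 (pow_eq_zero_iff (by norm_num)|>.1 hz)
  have h1 : z ^ (2 ^ 14) ≠ 0 := pow_ne_zero _ hz0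
  have h2 : X * z ^ (2 ^ 13 + 1) ≠ 0 := mul_ne_zero hX0 (pow_ne_zero _ hz0)
  have h3 : X ^ 3 ≠ 0 := pow_ne_zero _ hX0
  have e1 : v (z ^ (2 ^ 14)) = 16384 * v z := by
    rw [v_pow hmul hz0]; norm_num
  have e2 : v (X * z ^ (2 ^ 13 + 1)) = finrank (LaurentSeries k) E + 8193 * v z := by
    rw [hmul _ _ hX0 (pow_ne_zero _ hz0), v_pow hmul hz0, hX]; norm_num
  have e3 : v (X ^ 3) = 3 * finrank (LaurentSeries k) E := by
    rw [v_pow hmul hX0, hX]; norm_num
  have i1 := v_three hmul hadd h1 h2 h3 hz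
  have i2 := v_three hmul hadd h2 h3 h1 (by rw [← hz]; ring)
  have i3 := v_three hmul hadd h3 h1 h2 (by rw [← hz]; ring)
  rw [e1, e2, e3] at i1 i2 i3
  have hn : 0 < finrank (LaurentSeries k) E := finrank_pos
  obtain ⟨c1, c2⟩ := hcop
  generalize finrank (LaurentSeries k) E = n at *
  generalize v z = a at *
  have d1 : ¬ (8191 : ℤ) ∣ n := fun h => c2 (by exact_mod_cast h)
  have d2 : ¬ (2731 : ℤ) ∣ n := fun h => c1 (by exact_mod_cast h)
  rw [min_le_iff] at i1 i2 i3
  have hn' : (0 : ℤ) < n := by exact_mod_cast hn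
  rcases i1 with i1 | i1 <;> rcases i2 with i2 | i2 <;> rcases i3 with i3 | i3 <;>
    first
      | exact d1 ⟨a, by linarith⟩
      | exact d2 ⟨n - 4095 * a, by linarith⟩

theorem exists_low (k : Type) [Field k] [CharZero k] [IsAlgClosed k] (Ω : Type) [Field Ω]
    [Algebra (LaurentSeries k) Ω] [Algebra.IsAlgebraic (LaurentSeries k) Ω]
    (M : IntermediateField (LaurentSeries k) Ω) (hM : CopField 2731 8191 M) :
    ∃ A : Fin 14 → Fin 15 → Fin 15 → M, ∀ x : Fin 15 → M,
      (∀ i, ∑ a, ∑ b, A i a b * x a * x b = 0) → x = 0 := by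
  classical
  have hcharL : CharZero (LaurentSeries k) :=
    charZero_of_injective_ringHom (HahnSeries.C_injective (Γ := ℤ) (R := k))
  let X : M := algebraMap (LaurentSeries k) M (HahnSeries.single 1 1)
  let A : Fin 14 → Fin 15 → Fin 15 → M := fun i =>
    if h : i.val < 13 then
      mono ⟨i.val + 1, by omega⟩ ⟨i.val + 1, by omega⟩ (1 : M) +
        mono 0 ⟨i.val + 2, by omega⟩ (-1 : M)
    else mono 14 14 (1 : M) + (mono 1 14 X + mono 0 0 (X ^ 3))
  refine ⟨A, fun x hx => ?_⟩
  have h1 : ∀ j (hj : j < 13), x ⟨j + 1, by omega⟩ * x ⟨j + 1, by omega⟩ =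
      x 0 * x ⟨j + 2, by omega⟩ := by
    intro j hj
    have h := hx ⟨j, by omega⟩
    simp only [A, dif_pos hj, Pi.add_apply, add_mul, Finset.sum_add_distrib, sum_mono] at h
    linear_combination h
  have h2 : x 14 * x 14 + X * x 1 * x 14 + X ^ 3 * x 0 * x 0 = 0 := by
    have h := hx 13
    have h13 : ¬ ((13 : Fin 14).val < 13) := by decide
    simp only [A, dif_neg h13, Pi.add_apply, add_mul, Finset.sum_add_distrib, sum_mono] at h
    linear_combination h
  by_cases h0 : x 0 = 0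
  · have h3 : ∀ j (hj : j < 13), x ⟨j + 1, by omega⟩ = 0 := by
      intro j hj
      have h := h1 j hj
      rw [h0, zero_mul] at h
      exact mul_self_eq_zero.1 h
    have h4 : x 14 = 0 := by
      have h5 : x 1 = 0 := h3 0 (by omega)
      rw [h0, h5, mul_zero, mul_zero, zero_mul, add_zero, add_zero] at h2
      exact mul_self_eq_zero.1 h2
    funext ⟨j, hj⟩
    rcases Nat.eq_zero_or_pos j with h | h
    · subst h; exact h0
    · obtain ⟨i, rfl⟩ := Nat.exists_eq_add_of_le' h
      rcases Nat.lt_or_ge i 13 with h5 | h5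
      · exact h3 i h5
      · have : i = 13 := by omega
        subst this
        exact h4
  · exfalso
    have h3 : ∀ j (hj : j < 14), x ⟨j + 1, by omega⟩ = x 0 * (x 1 / x 0) ^ (2 ^ j) := by
      intro j
      induction j with
      | zero =>
        intro _
        rw [pow_zero, pow_one, mul_div_cancel₀ _ h0]
        rfl
      | succ j ih =>
        intro hj
        have h := h1 j (by omega)
        rw [ih (by omega)] at h
        have h4 : x 0 * (x 0 * (x 1 / x 0) ^ (2 ^ (j + 1))) =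
            x 0 * x ⟨j + 2, by omega⟩ := by
          rw [← h, pow_succ 2 j, pow_mul]; ring
        exact (mul_left_cancel₀ h0 h4).symm
    have h4 : x 14 = x 0 * (x 1 / x 0) ^ (2 ^ 13) := h3 13 (by omega)
    have h5 : x 1 = x 0 * (x 1 / x 0) := by rw [mul_div_cancel₀ _ h0]
    set z : M := x 1 / x 0 with hz
    have h6 : z ^ (2 ^ 14) + X * z ^ (2 ^ 13 + 1) + X ^ 3 = 0 := by
      rw [h4, h5] at h2
      have h7 : x 0 * x 0 * (z ^ (2 ^ 14) + X * z ^ (2 ^ 13 + 1) + X ^ 3) = 0 := by
        rw [← h2, show (2 : ℕ) ^ 14 = 2 ^ 13 + 2 ^ 13 by norm_num, pow_add z (2 ^ 13) (2 ^ 13),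
          pow_succ z (2 ^ 13)]
        generalize z ^ (2 ^ 13) = w
        ring
      exact (mul_eq_zero.1 h7).resolve_left (mul_ne_zero h0 h0)
    obtain ⟨E, hSE, hEM, hfd, hcop⟩ := hM.exists_finite {(z : Ω)} (Set.finite_singleton _)
      (Set.singleton_subset_iff.2 z.2)
    refine no_root k E hcop ⟨(z : Ω), hSE rfl⟩ ?_
    apply Subtype.ext
    have h7 := congrArg (fun w : M => (w : Ω)) h6
    exact h7

end Pool.Agent.Lib.MP_25ed17_al.Neg
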