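import Mathlib

/-!
Dimensions of finite dimensional modules over a commutative algebra lie in the semigroup generated
by the degrees of the residue fields.
-/

namespace Pool.Agent.Lib.MP_25ed17_al.Neg

open Module

variable {F B : Type*} [Field F] [CommRing B] [Algebra F B]

/-- If all finite residue degrees at maximal ideals containing `I` lie in the submonoid `P`, then so
does the dimension of every finite dimensional module killed by `I`. -/
theorem finrank_mem (P : AddSubmonoid ℕ) (I : Ideal B)
    (hB : ∀ M : Ideal B, M.IsMaximal → I ≤ M → FiniteDimensional F (B ⧸ M) →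
      finrank F (B ⧸ M) ∈ P)
    (N : Type*) [AddCommGroup N] [Module F N] [Module B N] [IsScalarTower F B N]
    [FiniteDimensional F N] (hN : I ≤ Module.annihilator B N) : finrank F N ∈ P := by
  obtain ⟨d, hd⟩ : ∃ d, finrank F N = d := ⟨_, rfl⟩
  induction d using Nat.strong_induction_on generalizing N with
  | _ d ih =>
    rcases subsingleton_or_nontrivial N with hs | hn
    · rw [finrank_zero_of_subsingleton]; exact P.zero_mem
    · have : IsNoetherian B N := isNoetherian_of_tower F inferInstance
      obtain ⟨S, hS, -⟩ := (eq_top_or_exists_le_coatom (⊥ : Submodule B N)).resolve_left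
        bot_ne_top
      have : IsSimpleModule B (N ⧸ S) := (isSimpleModule_iff_isCoatom).2 hS
      obtain ⟨M, hM, ⟨e⟩⟩ := isSimpleModule_iff_quot_maximal.mp this
      have := hM
      have e' : (N ⧸ S) ≃ₗ[F] (B ⧸ M) := e.restrictScalars F
      have : FiniteDimensional F (N ⧸ S) :=
        inferInstanceAs (FiniteDimensional F (N ⧸ S.restrictScalars F))
      have : FiniteDimensional F (B ⧸ M) := e'.finiteDimensional
      have hIM : I ≤ M := by
        intro a ha
        have h1 : (a : B) • (1 : B ⧸ M) = 0 := by
          obtain ⟨x, hx⟩ := e.surjective 1
          obtain ⟨y, rfl⟩ := Submodule.Quotient.mk_surjective S x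
          have h2 : a • y = 0 := Module.mem_annihilator.1 (hN ha) y
          rw [← hx, ← map_smul, ← Submodule.Quotient.mk_smul, h2, Submodule.Quotient.mk_zero,
            map_zero]
        rw [Algebra.smul_def, mul_one] at h1
        exact Ideal.Quotient.eq_zero_iff_mem.1 h1
      have h1 : finrank F (N ⧸ S) ∈ P := by
        rw [e'.finrank_eq]; exact hB M hM hIM inferInstance
      have hadd : finrank F (N ⧸ S) + finrank F S = finrank F N :=
        Submodule.finrank_quotient_add_finrank (S.restrictScalars F)
      have hlt : finrank F S < d := by
        have : Nontrivial (N ⧸ S) := IsSimpleModule.nontrivial B _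
        have : 0 < finrank F (N ⧸ S) := finrank_pos
        omega
      have : FiniteDimensional F S :=
        inferInstanceAs (FiniteDimensional F (S.restrictScalars F))
      have h2 : finrank F S ∈ P := by
        refine ih _ hlt S ?_ rfl
        intro a ha
        rw [Module.mem_annihilator]
        intro x
        apply Subtype.ext
        exact Module.mem_annihilator.1 (hN ha) x
      rw [← hadd]
      exact P.add_mem h1 h2

end Pool.Agent.Lib.MP_25ed17_al.Neg
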