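import Pool.Agent.Lib.MP_25ed17_al.Neg.Curve7
import Pool.Agent.Lib.MP_25ed17_al.Neg.Field
import Pool.Agent.Lib.MP_25ed17_al.Neg.Loc

/-!
Over a field of characteristic zero all of whose nontrivial finite extensions have degree divisible
by `2731` or `8191`, every system of `21` quadratic forms in `23` variables has a nontrivial zero.
-/

namespace Pool.Agent.Lib.MP_25ed17_al.Neg

open Module HahnSeries

section hom

variable {S T : Type*} [CommRing S] [CommRing T] {r : ℕ}

/-- The deformed forms. -/
def Pv (c : Fin r → Fin (r + 2) → Fin (r + 2) → S) (s : S) (y : Fin (r + 2) → S) (i : Fin r) : S :=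
  qf c y i + s * (y i.castSucc.castSucc ^ 2 - y i.succ.castSucc * y (Fin.last (r + 1)))

theorem map_Pv (f : S →+* T) (c : Fin r → Fin (r + 2) → Fin (r + 2) → S) (s : S)
    (y : Fin (r + 2) → S) (i : Fin r) :
    f (Pv c s y i) = Pv (fun i a b => f (c i a b)) (f s) (fun j => f (y j)) i := by
  simp only [Pv, map_add, map_sub, map_mul, map_pow, map_qf]

theorem Pv_mul (c : Fin r → Fin (r + 2) → Fin (r + 2) → S) (s l : S) (y : Fin (r + 2) → S)
    (i : Fin r) : Pv c s (fun a => l * y a) i = l ^ 2 * Pv c s y i := by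
  rw [Pv, Pv, qf_mul]
  ring

theorem Pv_eq (c : Fin r → Fin (r + 2) → Fin (r + 2) → S) {s ε : S} (h : s * ε = 1)
    (y : Fin (r + 2) → S) (i : Fin r) : Pv c s y i = s * Hv c ε y i := by
  rw [Pv, Hv]
  linear_combination (-qf c y i) * h

end hom

/-- A zero of the deformed forms in a finite extension of degree prime to `pq` reduces to a zero
of the original forms. -/
theorem reduce_zero {K : Type} [Field K] [CharZero K] {r : ℕ}
    (c : Fin r → Fin (r + 2) → Fin (r + 2) → K)
    (hc : ∀ x : Fin (r + 2) → K, (∀ i, qf c x i = 0) → x = 0)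
    (E : Type) [Field E] [Algebra (LaurentSeries K) E]
    (O : ValuationSubring E) (π : O →+* K)
    (h1 : ∀ a : K, ∃ h : algebraMap (LaurentSeries K) E (HahnSeries.C a) ∈ O, π ⟨_, h⟩ = a)
    (h2 : ∃ h : algebraMap (LaurentSeries K) E (HahnSeries.single 1 1) ∈ O, π ⟨_, h⟩ = 0)
    (y : Fin (r + 2) → E)
    (hy : ∀ i, Pv (fun i a b => algebraMap (LaurentSeries K) E (HahnSeries.C (c i a b)))
      (algebraMap (LaurentSeries K) E (HahnSeries.single 1 1)) y i = 0) : y = 0 := by
  by_contra hne
  obtain ⟨a₁, ha₁⟩ := Function.ne_iff.1 hne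
  obtain ⟨a₀, -, hmax⟩ := Finset.exists_max_image Finset.univ (fun a => O.valuation (y a))
    ⟨a₁, Finset.mem_univ _⟩
  have hv0 : O.valuation (y a₀) ≠ 0 := by
    intro h0
    have h3 := hmax a₁ (Finset.mem_univ _)
    rw [h0, le_zero_iff, map_eq_zero] at h3
    exact ha₁ h3
  have hy0 : y a₀ ≠ 0 := (Valuation.ne_zero_iff _).1 hv0
  have hmem : ∀ a, (y a₀)⁻¹ * y a ∈ O := by
    intro a
    rw [← ValuationSubring.valuation_le_one_iff, map_mul, map_inv₀, mul_comm, ← div_eq_mul_inv]
    exact div_le_one_of_le₀ (hmax a (Finset.mem_univ _)) zero_le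
  let z : Fin (r + 2) → O := fun a => ⟨(y a₀)⁻¹ * y a, hmem a⟩
  obtain ⟨hs, hs0⟩ := h2
  choose hC hC1 using h1
  have hz : ∀ i, Pv (fun i a b => (⟨_, hC (c i a b)⟩ : O)) (⟨_, hs⟩ : O) z i = 0 := by
    intro i
    apply Subtype.val_injective
    have h3 := map_Pv O.subtype (fun i a b => (⟨_, hC (c i a b)⟩ : O)) (⟨_, hs⟩ : O) z i
    have h4 := Pv_mul (fun i a b => algebraMap (LaurentSeries K) E (HahnSeries.C (c i a b)))
      (algebraMap (LaurentSeries K) E (HahnSeries.single 1 1)) (y a₀)⁻¹ y i
    rw [hy i, mul_zero] at h4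
    exact h3.trans h4
  have h5 := hc (fun a => π (z a)) (by
    intro i
    have h3 := map_Pv π (fun i a b => (⟨_, hC (c i a b)⟩ : O)) (⟨_, hs⟩ : O) z i
    rw [hz i, map_zero, hs0, Pv, zero_mul, add_zero] at h3
    simp only [hC1] at h3
    exact h3.symm)
  have h6 := congrFun h5 a₀
  have h7 : z a₀ = 1 := Subtype.ext (inv_mul_cancel₀ hy0)
  simp only [h7, map_one] at h6
  exact one_ne_zero h6

theorem transcendental_single (K : Type) [Field K] (F : Type) [Field F]
    [Algebra (LaurentSeries K) F] [Algebra K F]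
    (hKF : ∀ a : K, algebraMap K F a = algebraMap (LaurentSeries K) F (HahnSeries.C a)) :
    Transcendental K (algebraMap (LaurentSeries K) F (HahnSeries.single 1 1)) := by
  rw [transcendental_iff]
  intro p hp
  have h1 : Polynomial.aeval (algebraMap (LaurentSeries K) F (HahnSeries.single 1 1)) p =
      algebraMap (LaurentSeries K) F
        (∑ n ∈ p.support, HahnSeries.single (n : ℤ) (p.coeff n)) := by
    rw [Polynomial.aeval_eq_sum_range' (n := p.natDegree + 1) (Nat.lt_succ_self _), map_sum]
    have hsub : p.support ⊆ Finset.range (p.natDegree + 1) := Polynomial.supp_subset_range_natDegree_succ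
    rw [Finset.sum_subset hsub]
    · refine Finset.sum_congr rfl fun n _ => ?_
      rw [Algebra.smul_def, hKF, ← map_pow, ← map_mul]
      congr 1
      rw [HahnSeries.single_pow, one_pow, HahnSeries.C_apply, HahnSeries.single_mul_single]
      simp
    · intro n _ hn
      rw [Polynomial.notMem_support_iff.1 hn, HahnSeries.single_eq_zero, map_zero]
  rw [h1, map_eq_zero] at hp
  ext n
  rw [Polynomial.coeff_zero]
  by_contra hn
  have h2 := congrArg (fun f : LaurentSeries K => f.coeff (n : ℤ)) hp
  simp only [HahnSeries.coeff_sum, HahnSeries.coeff_zero] at h2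
  rw [Finset.sum_eq_single n] at h2
  · rw [HahnSeries.coeff_single_same] at h2
    exact hn h2
  · intro m _ hm
    rw [HahnSeries.coeff_single_of_ne]
    exact fun h => hm (by exact_mod_cast h.symm)
  · intro h
    exact absurd (Polynomial.mem_support_iff.2 hn) h

/-- Theorem A. -/
theorem exists_zero (K : Type) [Field K] [CharZero K]
    (hW : ∀ (E : Type) [Field E] [Algebra K E] [FiniteDimensional K E],
      finrank K E = 1 ∨ 2731 ∣ finrank K E ∨ 8191 ∣ finrank K E)
    {r : ℕ} (hr : r = 21) (c : Fin r → Fin (r + 2) → Fin (r + 2) → K) :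
    ∃ x : Fin (r + 2) → K, x ≠ 0 ∧ ∀ i, qf c x i = 0 := by
  by_contra hcon
  have hc : ∀ x : Fin (r + 2) → K, (∀ i, qf c x i = 0) → x = 0 := by
    intro x hx
    by_contra hne
    exact hcon ⟨x, hne, hx⟩
  have hp : Nat.Prime 2731 := by norm_num
  have hq : Nat.Prime 8191 := by norm_num
  have hchar : CharZero (LaurentSeries K) :=
    charZero_of_injective_ringHom (HahnSeries.C_injective (Γ := ℤ) (R := K))
  obtain ⟨M, hM, hmax⟩ := exists_maximal (k := LaurentSeries K)
    (Ω := AlgebraicClosure (LaurentSeries K)) hp hq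
  let s : M := algebraMap (LaurentSeries K) M (HahnSeries.single 1 1)
  have hs0 : s ≠ 0 := by
    rw [Ne, map_eq_zero, HahnSeries.single_eq_zero_iff]
    exact one_ne_zero
  let alg : Algebra K M := ((algebraMap (LaurentSeries K) M).comp HahnSeries.C).toAlgebra
  have hKF : ∀ a : K, algebraMap K M a = algebraMap (LaurentSeries K) M (HahnSeries.C a) :=
    fun a => rfl
  have hcharM : CharZero M :=
    charZero_of_injective_ringHom (algebraMap (LaurentSeries K) M).injective
  have htr : Transcendental K s⁻¹ := by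
    intro h
    exact transcendental_single K M hKF (IsAlgebraic.inv_iff.1 h)
  refine curve_false (K := K) (F := M) htr hr c
    (fun E _ _ _ => finrank_of_maximal hp hq hM hmax E) ?_
  intro y hy
  -- a finite subextension containing the coordinates
  obtain ⟨E, hSE, hEM, hfd, hcop⟩ := hM.exists_finite
    (Set.range fun a => (y a : AlgebraicClosure (LaurentSeries K))) (Set.finite_range _)
    (by rintro _ ⟨a, rfl⟩; exact (y a).2)
  obtain ⟨O, π, h1, h2⟩ := exists_place K E (by
    intro k' _ _ _ hdvd
    rcases hW k' with h | h | h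
    · exact h
    · exact absurd (h.trans hdvd) hcop.1
    · exact absurd (h.trans hdvd) hcop.2)
  let y' : Fin (r + 2) → E := fun a => ⟨y a, hSE ⟨a, rfl⟩⟩
  have h3 := reduce_zero c hc E O π h1 h2 y' (by
    intro i
    apply (algebraMap E (AlgebraicClosure (LaurentSeries K))).injective
    rw [map_Pv, map_zero]
    have h4 : Pv (cF M c) s y i = 0 := by
      rw [Pv_eq (cF M c) (mul_inv_cancel₀ hs0), hy i, mul_zero]
    have h5 := map_Pv (algebraMap M (AlgebraicClosure (LaurentSeries K))) (cF M c) s y i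
    rw [h4, map_zero] at h5
    exact h5.symm)
  funext a
  have h4 := congrFun h3 a
  apply Subtype.ext
  exact congrArg (fun z : E => (z : AlgebraicClosure (LaurentSeries K))) h4

end Pool.Agent.Lib.MP_25ed17_al.Neg
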